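import Pool.Agent.MUM.Defs

/-!
# MUM: algebraic linear maps

The algebraic maps `ah`, the vectors `tm`, the tensor product `tl` of two linear maps, and the coherence of `tm` under a
strong monoidal functor to vector spaces and under monoidal natural transformations.
-/

set_option linter.unusedSectionVars false
set_option linter.unusedVariables false

namespace Pool.Agent.MUM

open CategoryTheory MonoidalCategory Limits TensorProduct Pool.Agent.KTT

universe v u w w'

variable {C : Type u} [Category.{v} C] [MonoidalCategory C]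
  {F : Type w} [Field F] (H : C ⥤ ModuleCat.{w} F)

theorem ah_map {X Y : C} (s : X ⟶ Y) : (H.map s).hom ∈ ah H X Y :=
  Submodule.subset_span ⟨s, rfl⟩

theorem ah_id (X : C) : (LinearMap.id : H.obj X →ₗ[F] H.obj X) ∈ ah H X X := by
  have h := ah_map H (𝟙 X)
  rwa [H.map_id, ModuleCat.hom_id] at h

theorem ah_comp {X Y Z : C} {f : H.obj X →ₗ[F] H.obj Y} {g : H.obj Y →ₗ[F] H.obj Z}
    (hf : f ∈ ah H X Y) (hg : g ∈ ah H Y Z) : g ∘ₗ f ∈ ah H X Z := by
  induction hf using Submodule.span_induction with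
  | mem f hf =>
    obtain ⟨s, rfl⟩ := hf
    induction hg using Submodule.span_induction with
    | mem g hg =>
      obtain ⟨t, rfl⟩ := hg
      rw [← ModuleCat.hom_comp, ← H.map_comp]
      exact ah_map H (s ≫ t)
    | zero =>
      rw [LinearMap.zero_comp]
      exact Submodule.zero_mem _
    | add g g' _ _ h h' =>
      rw [LinearMap.add_comp]
      exact Submodule.add_mem _ h h'
    | smul c g _ h =>
      rw [LinearMap.smul_comp]
      exact Submodule.smul_mem _ c h
  | zero =>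
    rw [LinearMap.comp_zero]
    exact Submodule.zero_mem _
  | add f f' _ _ h h' =>
    rw [LinearMap.comp_add]
    exact Submodule.add_mem _ h h'
  | smul c f _ h =>
    rw [LinearMap.comp_smul]
    exact Submodule.smul_mem _ c h

variable [H.Monoidal]

theorem tm_add_left {X Y : C} (x x' : H.obj X) (y : H.obj Y) :
    tm H (x + x') y = tm H x y + tm H x' y := by
  unfold tm
  rw [TensorProduct.add_tmul, map_add]

theorem tm_add_right {X Y : C} (x : H.obj X) (y y' : H.obj Y) :
    tm H x (y + y') = tm H x y + tm H x y' := by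
  unfold tm
  rw [TensorProduct.tmul_add, map_add]

theorem tm_smul_left {X Y : C} (c : F) (x : H.obj X) (y : H.obj Y) :
    tm H (c • x) y = c • tm H x y := by
  unfold tm
  rw [← TensorProduct.smul_tmul', map_smul]

theorem tm_smul_right {X Y : C} (c : F) (x : H.obj X) (y : H.obj Y) :
    tm H x (c • y) = c • tm H x y := by
  unfold tm
  rw [TensorProduct.tmul_smul, map_smul]

private theorem ah_mud {X Y : C} (z : H.obj (X ⊗ Y)) :
    (Functor.LaxMonoidal.μ H X Y).hom ((Functor.OplaxMonoidal.δ H X Y).hom z) = z :=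
  LinearMap.congr_fun (congrArg ModuleCat.Hom.hom (Functor.Monoidal.δ_μ H X Y)) z

private theorem ah_dmu {X Y : C} (z : (H.obj X ⊗ H.obj Y : ModuleCat.{w} F)) :
    (Functor.OplaxMonoidal.δ H X Y).hom ((Functor.LaxMonoidal.μ H X Y).hom z) = z :=
  LinearMap.congr_fun (congrArg ModuleCat.Hom.hom (Functor.Monoidal.μ_δ H X Y)) z

/-- two linear maps which agree on all `tm x y` are equal -/
theorem tm_ext {X Y : C} {V : Type*} [AddCommGroup V] [Module F V]
    {f g : H.obj (X ⊗ Y) →ₗ[F] V} (h : ∀ x y, f (tm H x y) = g (tm H x y)) : f = g := by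
  have h1 : f ∘ₗ (Functor.LaxMonoidal.μ H X Y).hom = g ∘ₗ (Functor.LaxMonoidal.μ H X Y).hom :=
    TensorProduct.ext' fun x y => h x y
  refine LinearMap.ext fun z => ?_
  rw [← ah_mud H z]
  exact LinearMap.congr_fun h1 _

/-- The tensor product of two linear maps. -/
noncomputable def tl {X Y X' Y' : C} (f : H.obj X →ₗ[F] H.obj X') (g : H.obj Y →ₗ[F] H.obj Y') :
    H.obj (X ⊗ Y) →ₗ[F] H.obj (X' ⊗ Y') :=
  (Functor.LaxMonoidal.μ H X' Y').hom ∘ₗ TensorProduct.map f g ∘ₗ
    (Functor.OplaxMonoidal.δ H X Y).hom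

theorem tl_tm {X Y X' Y' : C} (f : H.obj X →ₗ[F] H.obj X') (g : H.obj Y →ₗ[F] H.obj Y')
    (x : H.obj X) (y : H.obj Y) : tl H f g (tm H x y) = tm H (f x) (g y) := by
  unfold tl tm
  rw [LinearMap.comp_apply, LinearMap.comp_apply]
  refine congrArg (Functor.LaxMonoidal.μ H X' Y').hom ?_
  refine Eq.trans (congrArg (TensorProduct.map f g) (ah_dmu H (x ⊗ₜ[F] y))) ?_
  rw [TensorProduct.map_tmul]

private theorem ah_mt {X Y X' Y' : C} (s : X ⟶ X') (t : Y ⟶ Y') (x : H.obj X) (y : H.obj Y) :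
    (H.map (s ⊗ₘ t)).hom (tm H x y) = tm H ((H.map s).hom x) ((H.map t).hom y) :=
  (LinearMap.congr_fun (congrArg ModuleCat.Hom.hom
    (Functor.LaxMonoidal.μ_natural H s t)) (x ⊗ₜ[F] y)).symm

theorem tl_map {X Y X' Y' : C} (s : X ⟶ X') (t : Y ⟶ Y') :
    tl H (H.map s).hom (H.map t).hom = (H.map (s ⊗ₘ t)).hom := by
  refine tm_ext H fun x y => ?_
  rw [tl_tm]
  exact (ah_mt H s t x y).symm

private theorem ah_tl_add_left {X Y X' Y' : C} (f f' : H.obj X →ₗ[F] H.obj X')
    (g : H.obj Y →ₗ[F] H.obj Y') : tl H (f + f') g = tl H f g + tl H f' g := by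
  refine tm_ext H fun x y => ?_
  rw [LinearMap.add_apply, tl_tm, tl_tm, tl_tm, LinearMap.add_apply, tm_add_left]

private theorem ah_tl_add_right {X Y X' Y' : C} (f : H.obj X →ₗ[F] H.obj X')
    (g g' : H.obj Y →ₗ[F] H.obj Y') : tl H f (g + g') = tl H f g + tl H f g' := by
  refine tm_ext H fun x y => ?_
  rw [LinearMap.add_apply, tl_tm, tl_tm, tl_tm, LinearMap.add_apply, tm_add_right]

private theorem ah_tl_smul_left {X Y X' Y' : C} (c : F) (f : H.obj X →ₗ[F] H.obj X')
    (g : H.obj Y →ₗ[F] H.obj Y') : tl H (c • f) g = c • tl H f g := by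
  refine tm_ext H fun x y => ?_
  rw [LinearMap.smul_apply, tl_tm, tl_tm, LinearMap.smul_apply, tm_smul_left]

private theorem ah_tl_smul_right {X Y X' Y' : C} (c : F) (f : H.obj X →ₗ[F] H.obj X')
    (g : H.obj Y →ₗ[F] H.obj Y') : tl H f (c • g) = c • tl H f g := by
  refine tm_ext H fun x y => ?_
  rw [LinearMap.smul_apply, tl_tm, tl_tm, LinearMap.smul_apply, tm_smul_right]

private theorem ah_tl_zero_left {X Y X' Y' : C}
    (g : H.obj Y →ₗ[F] H.obj Y') : tl H (0 : H.obj X →ₗ[F] H.obj X') g = 0 := by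
  have h := ah_tl_smul_left H (0 : F) (0 : H.obj X →ₗ[F] H.obj X') g
  rwa [zero_smul, zero_smul] at h

private theorem ah_tl_zero_right {X Y X' Y' : C} (f : H.obj X →ₗ[F] H.obj X') :
    tl H f (0 : H.obj Y →ₗ[F] H.obj Y') = 0 := by
  have h := ah_tl_smul_right H (0 : F) f (0 : H.obj Y →ₗ[F] H.obj Y')
  rwa [zero_smul, zero_smul] at h

theorem ah_tl {X Y X' Y' : C} {f : H.obj X →ₗ[F] H.obj X'} {g : H.obj Y →ₗ[F] H.obj Y'}
    (hf : f ∈ ah H X X') (hg : g ∈ ah H Y Y') : tl H f g ∈ ah H (X ⊗ Y) (X' ⊗ Y') := by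
  induction hf using Submodule.span_induction with
  | mem f hf =>
    obtain ⟨s, rfl⟩ := hf
    induction hg using Submodule.span_induction with
    | mem g hg =>
      obtain ⟨t, rfl⟩ := hg
      rw [tl_map]
      exact ah_map H (s ⊗ₘ t)
    | zero =>
      rw [ah_tl_zero_right]
      exact Submodule.zero_mem _
    | add g g' _ _ h h' =>
      rw [ah_tl_add_right]
      exact Submodule.add_mem _ h h'
    | smul c g _ h =>
      rw [ah_tl_smul_right]
      exact Submodule.smul_mem _ c h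
  | zero =>
    rw [ah_tl_zero_left]
    exact Submodule.zero_mem _
  | add f f' _ _ h h' =>
    rw [ah_tl_add_left]
    exact Submodule.add_mem _ h h'
  | smul c f _ h =>
    rw [ah_tl_smul_left]
    exact Submodule.smul_mem _ c h

theorem map_tm {X Y X' Y' : C} (s : X ⟶ X') (t : Y ⟶ Y') (x : H.obj X) (y : H.obj Y) :
    (H.map (s ⊗ₘ t)).hom (tm H x y) = tm H ((H.map s).hom x) ((H.map t).hom y) := by
  exact (LinearMap.congr_fun (congrArg ModuleCat.Hom.hom
    (Functor.LaxMonoidal.μ_natural H s t)) (x ⊗ₜ[F] y)).symm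

theorem assoc_tm {X Y Z : C} (x : H.obj X) (y : H.obj Y) (z : H.obj Z) :
    (H.map (α_ X Y Z).hom).hom (tm H (tm H x y) z) = tm H x (tm H y z) := by
  exact LinearMap.congr_fun (congrArg ModuleCat.Hom.hom
    (Functor.LaxMonoidal.associativity H X Y Z)) ((x ⊗ₜ[F] y) ⊗ₜ[F] z)

private theorem ah_inv {X Y : C} (e : X ≅ Y) (v : H.obj X) :
    (H.map e.inv).hom ((H.map e.hom).hom v) = v := by
  have h : H.map e.hom ≫ H.map e.inv = 𝟙 _ := by
    rw [← H.map_comp, e.hom_inv_id, H.map_id]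
  exact LinearMap.congr_fun (congrArg ModuleCat.Hom.hom h) v

theorem assoc_inv_tm {X Y Z : C} (x : H.obj X) (y : H.obj Y) (z : H.obj Z) :
    (H.map (α_ X Y Z).inv).hom (tm H x (tm H y z)) = tm H (tm H x y) z := by
  rw [← assoc_tm]
  exact ah_inv H (α_ X Y Z) _

/-- the unit vector -/
noncomputable def un : H.obj (𝟙_ C) := (Functor.LaxMonoidal.ε H).hom (1 : F)

theorem left_tm {X : C} (x : H.obj X) : (H.map (λ_ X).hom).hom (tm H (un H) x) = x := by
  have h := LinearMap.congr_fun (congrArg ModuleCat.Hom.hom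
    (Functor.LaxMonoidal.left_unitality H X)) ((1 : F) ⊗ₜ[F] x)
  have h1 : (λ_ (H.obj X)).hom.hom ((1 : F) ⊗ₜ[F] x) = (1 : F) • x := rfl
  rw [h1, one_smul] at h
  exact h.symm

theorem right_tm {X : C} (x : H.obj X) : (H.map (ρ_ X).hom).hom (tm H x (un H)) = x := by
  have h := LinearMap.congr_fun (congrArg ModuleCat.Hom.hom
    (Functor.LaxMonoidal.right_unitality H X)) (x ⊗ₜ[F] (1 : F))
  have h1 : (ρ_ (H.obj X)).hom.hom (x ⊗ₜ[F] (1 : F)) = (1 : F) • x := rfl
  rw [h1, one_smul] at h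
  exact h.symm

theorem left_inv_tm {X : C} (x : H.obj X) : (H.map (λ_ X).inv).hom x = tm H (un H) x := by
  conv_lhs => rw [← left_tm H x]
  exact ah_inv H (λ_ X) _

theorem right_inv_tm {X : C} (x : H.obj X) : (H.map (ρ_ X).inv).hom x = tm H x (un H) := by
  conv_lhs => rw [← right_tm H x]
  exact ah_inv H (ρ_ X) _

/-- a monoidal natural transformation and `tm` -/
theorem nat_tm (τ : H ⟶ H) [NatTrans.IsMonoidal τ] {X Y : C} (x : H.obj X) (y : H.obj Y) :
    (τ.app (X ⊗ Y)).hom (tm H x y) = tm H ((τ.app X).hom x) ((τ.app Y).hom y) := by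
  exact LinearMap.congr_fun (congrArg ModuleCat.Hom.hom
    (NatTrans.IsMonoidal.tensor (τ := τ) X Y)) (x ⊗ₜ[F] y)

theorem nat_un (τ : H ⟶ H) [NatTrans.IsMonoidal τ] : (τ.app (𝟙_ C)).hom (un H) = un H := by
  exact LinearMap.congr_fun (congrArg ModuleCat.Hom.hom
    (NatTrans.IsMonoidal.unit (τ := τ))) (1 : F)

omit [MonoidalCategory C] [H.Monoidal] in
/-- algebraic maps commute with natural transformations -/
theorem nat_ah (τ : H ⟶ H) {X Y : C} {f : H.obj X →ₗ[F] H.obj Y} (hf : f ∈ ah H X Y)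
    (x : H.obj X) : f ((τ.app X).hom x) = (τ.app Y).hom (f x) := by
  induction hf using Submodule.span_induction with
  | mem f hf =>
    obtain ⟨s, rfl⟩ := hf
    exact (LinearMap.congr_fun (congrArg ModuleCat.Hom.hom (τ.naturality s)) x).symm
  | zero =>
    rw [LinearMap.zero_apply, LinearMap.zero_apply, map_zero]
  | add f f' _ _ h h' =>
    rw [LinearMap.add_apply, LinearMap.add_apply, map_add, h, h']
  | smul c f _ h =>
    rw [LinearMap.smul_apply, LinearMap.smul_apply, map_smul, h]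

end Pool.Agent.MUM
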