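import Pool.Agent.KTT.Main

/-!
# MUM: definitions

Mumford fourfolds: `H^1(A) = V₁ ⊗ V₂ ⊗ V₃`, `dim V_i = 2`.
-/

namespace Pool.Agent.MUM

open CategoryTheory MonoidalCategory Limits TensorProduct Pool.Agent.KTT

universe v u w w'

section Mat

/-- The index set of the basis of `V₁ ⊗ V₂ ⊗ V₃`, `V_i = F^2`. -/
abbrev I := Fin 3 → Fin 2

/-- The index set of the basis of the `n`-th tensor power of `V₁ ⊗ V₂ ⊗ V₃`. -/
abbrev J (n : ℕ) := Fin n → I

/-- Three matrices of size two. -/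
abbrev Tri (F : Type w) := Fin 3 → Matrix (Fin 2) (Fin 2) F

variable {F : Type w} [Field F]

/-- The matrix of `h₁ ⊗ h₂ ⊗ h₃`. -/
def kr (h : Tri F) : Matrix I I F := Matrix.of fun a b => ∏ i, h i (a i) (b i)

/-- The matrix of `(h₁ ⊗ h₂ ⊗ h₃)^(⊗ n)`. -/
def krn (n : ℕ) (h : Tri F) : Matrix (J n) (J n) F :=
  Matrix.of fun a b => ∏ k, ∏ i, h i (a k i) (b k i)

/-- Three matrices of determinant one. -/
def Sl (h : Tri F) : Prop := ∀ i, (h i).det = 1

/-- The twelve coordinates of three matrices. -/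
def crd (h : Tri F) : Fin 3 × Fin 2 × Fin 2 → F := fun x => h x.1 x.2.1 x.2.2

/-- Every polynomial in the coordinates which vanishes on `Γ` vanishes on `SL_2(F)^3`. -/
def Dense3 (Γ : Set (Tri F)) : Prop :=
  ∀ p : MvPolynomial (Fin 3 × Fin 2 × Fin 2) F, (∀ h ∈ Γ, MvPolynomial.eval (crd h) p = 0) →
    ∀ h, Sl h → MvPolynomial.eval (crd h) p = 0

/-- Three permutations, acting on the three components of an index. -/
def pact {n : ℕ} (σ : Fin 3 → Equiv.Perm (Fin n)) (a : J n) : J n := fun k i => a (σ i k) i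

/-- The operator of three permutations on the `n`-th tensor power: `σ i` permutes the `n`
factors `V_i`. -/
def perm (n : ℕ) (σ : Fin 3 → Equiv.Perm (Fin n)) : (J n → F) →ₗ[F] (J n → F) :=
  LinearMap.funLeft F F (pact σ)

end Mat

section Cat

variable {C : Type u} [Category.{v} C] [MonoidalCategory C]
  {F : Type w} [Field F] (H : C ⥤ ModuleCat.{w} F)

omit [MonoidalCategory C] in
/-- The algebraic linear maps `H(X) → H(Y)`: the `F`-linear combinations of the realisations of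
morphisms. -/
def ah (X Y : C) : Submodule F (H.obj X →ₗ[F] H.obj Y) :=
  Submodule.span F {f | ∃ s : X ⟶ Y, f = (H.map s).hom}

/-- The tensor product of two vectors. -/
noncomputable def tm [H.Monoidal] {X Y : C} (x : H.obj X) (y : H.obj Y) : H.obj (X ⊗ Y) :=
  (Functor.LaxMonoidal.μ H X Y).hom (x ⊗ₜ[F] y)

/-- The commutativity isomorphism `X ⊗ Y → Y ⊗ X` is realised by the exchange of the factors, up
to a sign. -/
def Br [BraidedCategory C] [H.Monoidal] (X Y : C) : Prop :=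
  ∃ s : F, (s = 1 ∨ s = -1) ∧
    ∀ (x : H.obj X) (y : H.obj Y), (H.map (β_ X Y).hom).hom (tm H x y) = s • tm H y x

/-- The basis vector of `H(B)` with the index `a`. -/
noncomputable def bv {B : C} (e : H.obj B ≃ₗ[F] (I → F)) (a : I) : H.obj B :=
  e.symm (Pi.single a 1)

/-- `g` acts on `H(B)` as `c` times `h₁ ⊗ h₂ ⊗ h₃`. -/
def Acts {G : Type w'} [Group G] (ρ : G →* Aut H) {B : C} (e : H.obj B ≃ₗ[F] (I → F))
    (g : G) (c : F) (h : Tri F) : Prop :=
  ∀ v, e (((ρ g).hom.app B).hom v) = c • (kr h).mulVec (e v)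

/-- The object `B` (the motive `h^1(A)`, `A` an abelian fourfold of Mumford's type) with
`H(B) = V₁ ⊗ V₂ ⊗ V₃`; the group `G` acts by `c h₁ ⊗ h₂ ⊗ h₃`, with triples
`(h₁, h₂, h₃)` which are Zariski dense in `SL_2^3`. The geometric input is the last part: objects
`U`, `Q` and algebraic maps `up`, `down` between `H(B)` and `H(U ⊗ U ⊗ U ⊗ Q)` with
`up (v₁ ⊗ v₂ ⊗ v₃) = v₁ ⊗ v₂ ⊗ v₃ ⊗ q`, `V_i → H(U)`, and `down` in the other
direction. -/
structure MumfordType [BraidedCategory C] [H.Monoidal] {G : Type w'} [Group G] (ρ : G →* Aut H)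
    (B : C) where
  /-- `H(B) = V₁ ⊗ V₂ ⊗ V₃` -/
  e : H.obj B ≃ₗ[F] (I → F)
  tens : ∀ g, NatTrans.IsMonoidal (ρ g).hom
  act : ∀ g, ∃ (c : F) (h : Tri F), Sl h ∧ Acts H ρ e g c h
  dense : Dense3 {h : Tri F | Sl h ∧ ∃ g c, Acts H ρ e g c h}
  homothety : ∃ (g : G) (c : F), (∀ v, ((ρ g).hom.app B).hom v = c • v) ∧ ∀ k : ℕ, 0 < k → c ^ k ≠ 1
  /-- `H(U)` contains `V₁`, `V₂`, `V₃` -/
  U : C
  /-- a twist -/
  Q : C
  /-- the vectors of `V_i` in `H(U)` -/
  j : Fin 3 → Fin 2 → H.obj U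
  /-- a vector of `H(Q)` -/
  q : H.obj Q
  braid_U : Br H U U
  braid_Q : Br H Q U
  /-- the inclusion -/
  up : H.obj B →ₗ[F] H.obj (((U ⊗ U) ⊗ U) ⊗ Q)
  up_mem : up ∈ ah H B (((U ⊗ U) ⊗ U) ⊗ Q)
  up_eq : ∀ a : I, up (bv H e a) = tm H (tm H (tm H (j 0 (a 0)) (j 1 (a 1))) (j 2 (a 2))) q
  /-- the projection -/
  down : H.obj (((U ⊗ U) ⊗ U) ⊗ Q) →ₗ[F] H.obj B
  down_mem : down ∈ ah H (((U ⊗ U) ⊗ U) ⊗ Q) B
  down_eq : ∀ a : I, down (tm H (tm H (tm H (j 0 (a 0)) (j 1 (a 1))) (j 2 (a 2))) q) = bv H e a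

/-- The `n`-th tensor power of `B`. -/
def pw (B : C) : ℕ → C
  | 0 => 𝟙_ C
  | n + 1 => B ⊗ pw B n

/-- The basis vector of `H(B^(⊗ n))` with the index `a`. -/
noncomputable def mon [H.Monoidal] {B : C} (e : H.obj B ≃ₗ[F] (I → F)) :
    (n : ℕ) → J n → H.obj (pw B n)
  | 0, _ => (Functor.LaxMonoidal.ε H).hom (1 : F)
  | n + 1, a => tm H (bv H e (a 0)) (mon e n fun k => a k.succ)

end Cat

end Pool.Agent.MUM
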