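import Pool.Agent.MUM.Defs

/-!
# MUM: from a Zariski dense set to all matrices
-/

set_option linter.unusedSectionVars false
set_option linter.unusedVariables false

namespace Pool.Agent.MUM

universe w

variable {F : Type w} [Field F]

/-- the polynomial of a functional -/
private noncomputable def densP {n : ℕ} (L : Matrix (J n) (J n) F →ₗ[F] F) :
    MvPolynomial (Fin 3 × Fin 2 × Fin 2) F :=
  ∑ a : J n, ∑ b : J n, MvPolynomial.C (L (Matrix.single a b 1)) *
    ∏ k, ∏ i, MvPolynomial.X (i, a k i, b k i)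

private theorem dens_eval {n : ℕ} (L : Matrix (J n) (J n) F →ₗ[F] F) (h : Tri F) :
    MvPolynomial.eval (crd h) (densP L) = L (krn n h) := by
  classical
  have h1 : krn n h = ∑ a : J n, ∑ b : J n, (∏ k, ∏ i, h i (a k i) (b k i)) •
      Matrix.single a b (1 : F) := by
    conv_lhs => rw [Matrix.matrix_eq_sum_single (krn n h)]
    refine Finset.sum_congr rfl fun a _ => Finset.sum_congr rfl fun b _ => ?_
    rw [Matrix.smul_single, smul_eq_mul, mul_one]
    rfl
  rw [h1, densP]
  simp only [map_sum, map_smul, map_mul, map_prod, MvPolynomial.eval_C, MvPolynomial.eval_X,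
    smul_eq_mul]
  refine Finset.sum_congr rfl fun a _ => Finset.sum_congr rfl fun b _ => ?_
  rw [mul_comm]
  rfl

private theorem dens_smul {n : ℕ} (t : Fin 3 → F) (h : Tri F) :
    krn n (fun i => t i • h i) = (∏ i, t i) ^ n • krn n h := by
  ext a b
  simp only [krn, Matrix.of_apply, Matrix.smul_apply, smul_eq_mul, Finset.prod_mul_distrib,
    Finset.prod_const, Finset.card_univ, Fintype.card_fin]

private theorem dens_det [IsAlgClosed F] {Γ : Set (Tri F)} (hΓ : Dense3 Γ) {n : ℕ}
    (L : Matrix (J n) (J n) F →ₗ[F] F) (h0 : ∀ h ∈ Γ, L (krn n h) = 0) (h : Tri F)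
    (hd : ∀ i, (h i).det ≠ 0) : L (krn n h) = 0 := by
  have h1 : ∀ i, ∃ t : F, t ^ 2 = (h i).det⁻¹ := fun i =>
    IsAlgClosed.exists_pow_nat_eq _ (by norm_num)
  choose t ht using h1
  have ht0 : ∀ i, t i ≠ 0 := by
    intro i h2
    have h3 := ht i
    rw [h2, zero_pow two_ne_zero] at h3
    exact inv_ne_zero (hd i) h3.symm
  have h2 : Sl (fun i => t i • h i) := by
    intro i
    rw [Matrix.det_smul, Fintype.card_fin, ht, inv_mul_cancel₀ (hd i)]
  have h3 := hΓ (densP L) (fun g hg => by rw [dens_eval]; exact h0 g hg) _ h2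
  rw [dens_eval, dens_smul, map_smul, smul_eq_mul] at h3
  exact (mul_eq_zero.1 h3).resolve_left (pow_ne_zero _ (Finset.prod_ne_zero_iff.2 fun i _ => ht0 i))

theorem dense_all [IsAlgClosed F] {Γ : Set (Tri F)} (hΓ : Dense3 Γ) {n : ℕ}
    (L : Matrix (J n) (J n) F →ₗ[F] F) (h0 : ∀ h ∈ Γ, L (krn n h) = 0) (h : Tri F) :
    L (krn n h) = 0 := by
  classical
  have : Infinite F := IsAlgClosed.instInfinite
  let f : Fin 3 × Fin 2 × Fin 2 → Polynomial F := fun x =>
    Polynomial.C (h x.1 x.2.1 x.2.2) + if x.2.1 = x.2.2 then Polynomial.X else 0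
  let q : Polynomial F := MvPolynomial.aeval f (densP L)
  let hs : F → Tri F := fun s i => h i + s • (1 : Matrix (Fin 2) (Fin 2) F)
  have hf : ∀ s x, (f x).eval s = crd (hs s) x := by
    intro s x
    simp only [f, crd, hs, Polynomial.eval_add, Polynomial.eval_C, Matrix.add_apply,
      Matrix.smul_apply, Matrix.one_apply, smul_eq_mul, mul_ite, mul_one, mul_zero]
    split_ifs with h1
    · rw [Polynomial.eval_X]
    · rw [Polynomial.eval_zero]
  have hq : ∀ s, q.eval s = L (krn n (hs s)) := by
    intro s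
    rw [← dens_eval]
    have h1 : (Polynomial.evalRingHom s).comp (MvPolynomial.aeval f).toRingHom =
        MvPolynomial.eval (crd (hs s)) := by
      apply MvPolynomial.ringHom_ext
      · intro r
        simp
      · intro x
        simp [hf s x]
    exact congrArg (fun g : MvPolynomial (Fin 3 × Fin 2 × Fin 2) F →+* F => g (densP L)) h1
  let D : Polynomial F := ∏ i : Fin 3, (Polynomial.X ^ 2 +
    (Polynomial.C (h i 0 0 + h i 1 1) * Polynomial.X + Polynomial.C (h i).det))
  have hD : ∀ s, D.eval s = ∏ i, (hs s i).det := by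
    intro s
    rw [Polynomial.eval_prod]
    refine Finset.prod_congr rfl fun i _ => ?_
    simp only [hs, Matrix.det_fin_two, Polynomial.eval_add, Polynomial.eval_pow,
      Polynomial.eval_X, Polynomial.eval_mul, Polynomial.eval_C, Matrix.add_apply,
      Matrix.smul_apply, smul_eq_mul]
    simp
    ring
  have hD0 : D ≠ 0 := by
    refine Finset.prod_ne_zero_iff.2 fun i _ => ?_
    refine Polynomial.Monic.ne_zero ?_
    refine Polynomial.monic_X_pow_add ?_
    refine lt_of_le_of_lt (Polynomial.degree_linear_le) ?_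
    norm_num
  have hqD : q * D = 0 := by
    apply Polynomial.funext
    intro s
    rw [Polynomial.eval_mul, Polynomial.eval_zero, hq, hD]
    by_cases hc : ∀ i, (hs s i).det ≠ 0
    · rw [dens_det hΓ L h0 _ hc, zero_mul]
    · push Not at hc
      obtain ⟨i, hi⟩ := hc
      rw [Finset.prod_eq_zero (Finset.mem_univ i) hi, mul_zero]
  have hq0 : q = 0 := (mul_eq_zero.1 hqD).resolve_right hD0
  have h1 := hq 0
  rw [hq0, Polynomial.eval_zero] at h1
  have h2 : hs 0 = h := by
    funext i
    simp only [hs, zero_smul, add_zero]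
  rw [h2] at h1
  exact h1.symm

theorem span_dense [IsAlgClosed F] {Γ : Set (Tri F)} (hΓ : Dense3 Γ) (n : ℕ) (h : Tri F) :
    krn n h ∈ Submodule.span F (krn (F := F) n '' Γ) := by
  by_contra hcon
  obtain ⟨L, hL, hL0⟩ := Submodule.exists_le_ker_of_notMem hcon
  exact hL (dense_all hΓ L (fun g hg => hL0 (Submodule.subset_span ⟨g, hg, rfl⟩)) h)

end Pool.Agent.MUM
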