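import Pool.Agent.MUM.Schur
import Pool.Agent.MUM.Dens

/-!
# MUM: Schur-Weyl duality for a Zariski dense set

Every `krn n h` is a linear combination of the `krn n h'`, `h'` in a Zariski dense set `Γ` (`span_dense`),
and the matrices which commute with `f` (resp. map `W` to `W`) form a subspace. So the two halves of
Schur-Weyl duality for all triples (`comm_perm`, `compl_krn`) hold for `Γ`.
-/

set_option linter.unusedSectionVars false
set_option linter.unusedVariables false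

namespace Pool.Agent.MUM

universe w

variable {F : Type w} [Field F]

private theorem schurd_mulVecLin_smul {n : ℕ} (c : F) (X : Matrix (J n) (J n) F) :
    (c • X).mulVecLin = c • X.mulVecLin := by
  ext v i
  simp

private theorem schurd_comm [IsAlgClosed F] {Γ : Set (Tri F)} (hΓ : Dense3 Γ) {n : ℕ}
    (f : (J n → F) →ₗ[F] (J n → F))
    (hf : ∀ h ∈ Γ, f ∘ₗ (krn n h).mulVecLin = (krn n h).mulVecLin ∘ₗ f) (h : Tri F) :
    f ∘ₗ (krn n h).mulVecLin = (krn n h).mulVecLin ∘ₗ f := by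
  refine Submodule.span_induction (p := fun X _ => f ∘ₗ X.mulVecLin = X.mulVecLin ∘ₗ f)
    ?_ ?_ ?_ ?_ (span_dense hΓ n h)
  · rintro _ ⟨h', hh', rfl⟩
    exact hf h' hh'
  · rw [Matrix.mulVecLin_zero, LinearMap.comp_zero, LinearMap.zero_comp]
  · intro X Y _ _ hX hY
    rw [Matrix.mulVecLin_add, LinearMap.comp_add, LinearMap.add_comp, hX, hY]
  · intro c X _ hX
    rw [schurd_mulVecLin_smul, LinearMap.comp_smul, LinearMap.smul_comp, hX]

private theorem schurd_stab [IsAlgClosed F] {Γ : Set (Tri F)} (hΓ : Dense3 Γ) {n : ℕ}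
    (W : Submodule F (J n → F)) (hW : ∀ h ∈ Γ, ∀ v ∈ W, (krn n h).mulVec v ∈ W) (h : Tri F) :
    ∀ v ∈ W, (krn n h).mulVec v ∈ W := by
  refine Submodule.span_induction (p := fun X _ => ∀ v ∈ W, X.mulVec v ∈ W)
    ?_ ?_ ?_ ?_ (span_dense hΓ n h)
  · rintro _ ⟨h', hh', rfl⟩
    exact hW h' hh'
  · intro v _
    rw [Matrix.zero_mulVec]
    exact W.zero_mem
  · intro X Y _ _ hX hY v hv
    rw [Matrix.add_mulVec]
    exact W.add_mem (hX v hv) (hY v hv)
  · intro c X _ hX v hv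
    rw [Matrix.smul_mulVec]
    exact W.smul_mem c (hX v hv)

theorem comm_dense [CharZero F] [IsAlgClosed F] {Γ : Set (Tri F)} (hΓ : Dense3 Γ) {n : ℕ}
    (f : (J n → F) →ₗ[F] (J n → F))
    (hf : ∀ h ∈ Γ, f ∘ₗ (krn n h).mulVecLin = (krn n h).mulVecLin ∘ₗ f) :
    f ∈ Submodule.span F (Set.range (perm (F := F) n)) := by
  exact comm_perm f (schurd_comm hΓ f hf)

theorem compl_dense [CharZero F] [IsAlgClosed F] {Γ : Set (Tri F)} (hΓ : Dense3 Γ) {n : ℕ}
    (W : Submodule F (J n → F)) (hW : ∀ h ∈ Γ, ∀ v ∈ W, (krn n h).mulVec v ∈ W) :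
    ∃ W' : Submodule F (J n → F), (∀ h ∈ Γ, ∀ v ∈ W', (krn n h).mulVec v ∈ W') ∧
      IsCompl W W' := by
  obtain ⟨W', h1, h2⟩ := compl_krn W (schurd_stab hΓ W hW)
  exact ⟨W', fun h _ => h1 h, h2⟩

end Pool.Agent.MUM
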