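import Pool.Agent.MUM.PermAlg
import Pool.Agent.MUM.SchurD

/-!
# MUM: equivariant endomorphisms of the tensor powers are algebraic

`n = m`: in coordinates the map commutes with `krn n h` for a dense set of `h`, so it is a combination of the
operators `perm n σ`, which are algebraic. `n ≠ m`: the homothety acts by `c ^ m` and `c ^ n`, so the map is zero.
-/

set_option linter.unusedSectionVars false
set_option linter.unusedVariables false

namespace Pool.Agent.MUM

open CategoryTheory MonoidalCategory Limits TensorProduct Pool.Agent.KTT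

universe v u w w'

variable {C : Type u} [Category.{v} C] [MonoidalCategory C] [BraidedCategory C]
  {F : Type w} [Field F] [CharZero F] [IsAlgClosed F] {H : C ⥤ ModuleCat.{w} F} [H.Monoidal]
  {G : Type w'} [Group G] {ρ : G →* Aut H} {B : C}

private theorem endG_eq (M : MumfordType H ρ B) (n : ℕ) (f : H.obj (pw B n) →ₗ[F] H.obj (pw B n))
    (hf : ∀ g v, f (((ρ g).hom.app (pw B n)).hom v) = ((ρ g).hom.app (pw B n)).hom (f v)) :
    f ∈ ah H (pw B n) (pw B n) := by
  have h1 : (cd H M.e n).toLinearMap ∘ₗ f ∘ₗ (cd H M.e n).symm.toLinearMap ∈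
      Submodule.span F (Set.range (perm (F := F) n)) := by
    refine comm_dense M.dense _ ?_
    rintro h ⟨-, g, c, hg⟩
    have hc : c ^ n ≠ 0 := pow_ne_zero n (acts_ne_zero H ρ M.e hg)
    have := M.tens g
    refine LinearMap.ext fun w => ?_
    have h2 := hf g ((cd H M.e n).symm w)
    have h3 := act_cd H ρ M.e hg n ((cd H M.e n).symm w)
    have h4 := act_cd H ρ M.e hg n (f ((cd H M.e n).symm w))
    rw [LinearEquiv.apply_symm_apply] at h3
    rw [← h2] at h4
    have h5 : ((ρ g).hom.app (pw B n)).hom ((cd H M.e n).symm w) =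
        (cd H M.e n).symm (c ^ n • (krn n h).mulVec w) := by
      rw [← h3, LinearEquiv.symm_apply_apply]
    rw [h5, map_smul, map_smul, map_smul] at h4
    exact smul_right_injective _ hc h4
  have h6 : ∀ p ∈ Submodule.span F (Set.range (perm (F := F) n)),
      (cd H M.e n).symm.toLinearMap ∘ₗ p ∘ₗ (cd H M.e n).toLinearMap ∈
        ah H (pw B n) (pw B n) := by
    intro p hp
    induction hp using Submodule.span_induction with
    | mem p hp =>
      obtain ⟨σ, rfl⟩ := hp
      exact perm_mem M n σ
    | zero =>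
      rw [LinearMap.zero_comp, LinearMap.comp_zero]
      exact Submodule.zero_mem _
    | add p q _ _ h7 h8 =>
      rw [LinearMap.add_comp, LinearMap.comp_add]
      exact Submodule.add_mem _ h7 h8
    | smul a p _ h7 =>
      rw [LinearMap.smul_comp, LinearMap.comp_smul]
      exact Submodule.smul_mem _ a h7
  have h9 := h6 _ h1
  have h10 : (cd H M.e n).symm.toLinearMap ∘ₗ ((cd H M.e n).toLinearMap ∘ₗ f ∘ₗ
      (cd H M.e n).symm.toLinearMap) ∘ₗ (cd H M.e n).toLinearMap = f := by
    refine LinearMap.ext fun v => ?_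
    simp
  rwa [h10] at h9

theorem hom_pw (M : MumfordType H ρ B) (n m : ℕ) (f : H.obj (pw B m) →ₗ[F] H.obj (pw B n))
    (hf : ∀ g v, f (((ρ g).hom.app (pw B m)).hom v) = ((ρ g).hom.app (pw B n)).hom (f v)) :
    f ∈ ah H (pw B m) (pw B n) := by
  rcases eq_or_ne n m with h | h
  · subst h
    exact endG_eq M n f hf
  · obtain ⟨g, c, hc, hk⟩ := M.homothety
    have := M.tens g
    have h1 : Acts H ρ M.e g c 1 := by
      intro v
      rw [hc v, map_smul, kr_one, Matrix.one_mulVec]
    have h0 : c ≠ 0 := acts_ne_zero H ρ M.e h1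
    have h2 : ∀ (k : ℕ) (v : H.obj (pw B k)), ((ρ g).hom.app (pw B k)).hom v = c ^ k • v := by
      intro k v
      apply (cd H M.e k).injective
      rw [act_cd H ρ M.e h1 k v, krn_one, Matrix.one_mulVec, map_smul]
    have h3 : c ^ m ≠ c ^ n := by
      intro h4
      rcases lt_or_gt_of_ne h with h5 | h5
      · refine hk (m - n) (by omega) ?_
        apply mul_left_cancel₀ (pow_ne_zero n h0)
        rw [← pow_add, mul_one, Nat.add_sub_cancel' h5.le, h4]
      · refine hk (n - m) (by omega) ?_
        apply mul_left_cancel₀ (pow_ne_zero m h0)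
        rw [← pow_add, mul_one, Nat.add_sub_cancel' h5.le, h4]
    have h6 : f = 0 := by
      refine LinearMap.ext fun v => ?_
      have h7 := hf g v
      rw [h2, h2, map_smul] at h7
      have h8 : (c ^ m - c ^ n) • f v = 0 := by
        rw [sub_smul, h7, sub_self]
      exact (smul_eq_zero.1 h8).resolve_left (sub_ne_zero.2 h3)
    rw [h6]
    exact Submodule.zero_mem _

end Pool.Agent.MUM
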