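import Pool.Agent.MUM.Ah

/-!
# MUM: invariants of `H(X ⊗ Yᘁ)` and equivariant maps `H(Y) → H(X)`

Plan. For `v` in `H(X ⊗ Yᘁ)` let `f_v y = H(ρ_X ∘ (X ◁ ε_ Y Yᘁ) ∘ α) (tm v y)`. It is linear in `v`, equivariant if `v` is fixed (`nat_tm`, naturality,
`nat_un` is not even needed: the naturality of `τ` for the morphism `α ≫ X ◁ ε ≫ ρ` suffices). Zigzag: `v = tl f_v id (H(η_ Y Yᘁ) 1)`: for
`v = tm x y'` this is `ExactPairing.coevaluation_evaluation` or `evaluation_coevaluation` (see `hz1`, `hz2` in `KTT.Center`, `KTT.Rigid`), and both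
sides are linear in `v`. So if `f_v = ∑ c_i H(s_i)` then `v = ∑ c_i H(η ≫ s_i ▷ Yᘁ) 1` is in `alg`.
-/

set_option linter.unusedSectionVars false
set_option linter.unusedVariables false

namespace Pool.Agent.MUM

open CategoryTheory MonoidalCategory Limits TensorProduct Pool.Agent.KTT

universe v u w w'

private theorem mum_hom_hz {C : Type u} [Category.{v} C] [MonoidalCategory C] {D : Type*}
    [Category* D] [MonoidalCategory D] (H : C ⥤ D) [H.Monoidal] (X Y : C) [ExactPairing X Y] :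
    H.obj Y ◁ (Functor.LaxMonoidal.ε H ≫ H.map (η_ X Y) ≫ Functor.OplaxMonoidal.δ H X Y) ≫
      (α_ (H.obj Y) (H.obj X) (H.obj Y)).inv ≫
      (Functor.LaxMonoidal.μ H Y X ≫ H.map (ε_ X Y) ≫ Functor.OplaxMonoidal.η H) ▷ H.obj Y =
      (ρ_ (H.obj Y)).hom ≫ (λ_ (H.obj Y)).inv := by
  have h := congrArg H.map (ExactPairing.coevaluation_evaluation X Y)
  rw [H.map_comp, H.map_comp, H.map_comp, Functor.Monoidal.map_whiskerLeft,
    Functor.Monoidal.map_whiskerRight, Functor.Monoidal.map_associator_inv,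
    Functor.Monoidal.map_rightUnitor, Functor.Monoidal.map_leftUnitor_inv] at h
  simp only [Category.assoc, Functor.Monoidal.μ_δ_assoc] at h
  have h2 := congrArg (fun f => (H.obj Y ◁ Functor.LaxMonoidal.ε H ≫
    Functor.LaxMonoidal.μ H Y (𝟙_ C)) ≫ f ≫
    (Functor.OplaxMonoidal.δ H (𝟙_ C) Y ≫ Functor.OplaxMonoidal.η H ▷ H.obj Y)) h
  simp only [Category.assoc, Functor.Monoidal.μ_δ_assoc, Functor.Monoidal.whiskerLeft_ε_η_assoc,
    Functor.Monoidal.whiskerRight_ε_η, Category.comp_id] at h2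
  simp only [MonoidalCategory.whiskerLeft_comp, comp_whiskerRight, Category.assoc]
  exact h2

/-- the contraction `V ⊗ W → W` with the first factor, given by `y` -/
private noncomputable def mum_hom_ct {F : Type w} [Field F] {V W : ModuleCat.{w} F}
    (e : W ⊗ V ⟶ 𝟙_ (ModuleCat.{w} F)) (y : W) : (V ⊗[F] W) →ₗ[F] W :=
  TensorProduct.lift ((LinearMap.lsmul F W).comp (e.hom.comp (TensorProduct.mk F W V y)))

private theorem mum_hom_zig {F : Type w} [Field F] (V W : ModuleCat.{w} F)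
    (c : 𝟙_ (ModuleCat.{w} F) ⟶ V ⊗ W) (e : W ⊗ V ⟶ 𝟙_ (ModuleCat.{w} F))
    (h : W ◁ c ≫ (α_ W V W).inv ≫ e ▷ W = (ρ_ W).hom ≫ (λ_ W).inv) (y : W) :
    mum_hom_ct e y (c.hom (1 : F)) = y := by
  have key : ∀ t : (V ⊗ W : ModuleCat.{w} F),
      (λ_ W).hom.hom ((e ▷ W).hom ((α_ W V W).inv.hom (y ⊗ₜ[F] t))) = mum_hom_ct e y t := by
    intro t
    induction t using TensorProduct.induction_on with
    | zero => rw [TensorProduct.tmul_zero, map_zero, map_zero, map_zero, map_zero]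
    | tmul a b => rfl
    | add s t hs ht => rw [TensorProduct.tmul_add, map_add, map_add, map_add, map_add, hs, ht]
  have h4 := congrArg (fun f => (λ_ W).hom.hom (f.hom (y ⊗ₜ[F] (1 : F)))) h
  have h5 : (W ◁ c ≫ (α_ W V W).inv ≫ e ▷ W).hom (y ⊗ₜ[F] (1 : F)) =
      (e ▷ W).hom ((α_ W V W).inv.hom (y ⊗ₜ[F] (c.hom (1 : F)))) := rfl
  have h6 : (λ_ W).hom.hom (((ρ_ W).hom ≫ (λ_ W).inv).hom (y ⊗ₜ[F] (1 : F))) = y := by
    have h7 : (λ_ W).hom.hom (((ρ_ W).hom ≫ (λ_ W).inv).hom (y ⊗ₜ[F] (1 : F))) =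
      (((ρ_ W).hom ≫ (λ_ W).inv) ≫ (λ_ W).hom).hom (y ⊗ₜ[F] (1 : F)) := rfl
    rw [h7, Category.assoc, Iso.inv_hom_id, Category.comp_id]
    exact one_smul F y
  rw [← key]
  exact h4.trans h6

variable {C : Type u} [Category.{v} C] [MonoidalCategory C]
  {F : Type w} [Field F] {H : C ⥤ ModuleCat.{w} F} [H.Monoidal]
  {G : Type w'} [Group G] {ρ : G →* Aut H}

/-- the map `f_v` -/
private noncomputable def mum_hom_f (H : C ⥤ ModuleCat.{w} F) [H.Monoidal] (X Y : C)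
    [HasRightDual Y] : H.obj (X ⊗ Yᘁ) →ₗ[F] H.obj Y →ₗ[F] H.obj X :=
  (TensorProduct.mk F (H.obj (X ⊗ Yᘁ)) (H.obj Y)).compr₂
    ((H.map ((α_ X Yᘁ Y).hom ≫ X ◁ ε_ Y Yᘁ ≫ (ρ_ X).hom)).hom ∘ₗ
      (Functor.LaxMonoidal.μ H (X ⊗ Yᘁ) Y).hom)

private theorem mum_hom_f_apply (X Y : C) [HasRightDual Y] (v : H.obj (X ⊗ Yᘁ)) (y : H.obj Y) :
    mum_hom_f H X Y v y = (H.map ((α_ X Yᘁ Y).hom ≫ X ◁ ε_ Y Yᘁ ≫ (ρ_ X).hom)).hom (tm H v y) :=
  rfl

/-- the pairing -/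
private noncomputable def mum_hom_e (H : C ⥤ ModuleCat.{w} F) [H.Monoidal] (Y : C)
    [HasRightDual Y] : H.obj Yᘁ ⊗ H.obj Y ⟶ 𝟙_ (ModuleCat.{w} F) :=
  Functor.LaxMonoidal.μ H Yᘁ Y ≫ H.map (ε_ Y Yᘁ) ≫ Functor.OplaxMonoidal.η H

private noncomputable def mum_hom_c (H : C ⥤ ModuleCat.{w} F) [H.Monoidal] (Y : C)
    [HasRightDual Y] : 𝟙_ (ModuleCat.{w} F) ⟶ H.obj Y ⊗ H.obj Yᘁ :=
  Functor.LaxMonoidal.ε H ≫ H.map (η_ Y Yᘁ) ≫ Functor.OplaxMonoidal.δ H Y Yᘁ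

private theorem mum_hom_un (w : H.obj (𝟙_ C)) :
    w = ((Functor.OplaxMonoidal.η H).hom w : F) • un H := by
  have h1 := congrArg (fun f => f.hom w) (Functor.Monoidal.η_ε H)
  have h2 : (Functor.LaxMonoidal.ε H).hom ((Functor.OplaxMonoidal.η H).hom w) = w := h1
  have h3 : (Functor.LaxMonoidal.ε H).hom (((Functor.OplaxMonoidal.η H).hom w : F) • (1 : F)) =
      ((Functor.OplaxMonoidal.η H).hom w : F) • (Functor.LaxMonoidal.ε H).hom (1 : F) :=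
    map_smul _ _ _
  rw [smul_eq_mul, mul_one] at h3
  exact h2.symm.trans h3

private theorem mum_hom_f_tm (X Y : C) [HasRightDual Y] (x : H.obj X) (y' : H.obj Yᘁ)
    (a : H.obj Y) : mum_hom_f H X Y (tm H x y') a = ((mum_hom_e H Y).hom (y' ⊗ₜ[F] a) : F) • x := by
  rw [mum_hom_f_apply, H.map_comp, H.map_comp]
  have h1 : (H.map (α_ X Yᘁ Y).hom ≫ H.map (X ◁ ε_ Y Yᘁ) ≫ H.map (ρ_ X).hom).hom
      (tm H (tm H x y') a) = (H.map (ρ_ X).hom).hom ((H.map (X ◁ ε_ Y Yᘁ)).hom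
        ((H.map (α_ X Yᘁ Y).hom).hom (tm H (tm H x y') a))) := rfl
  rw [h1, assoc_tm, ← id_tensorHom, map_tm, H.map_id]
  have h2 : (mum_hom_e H Y).hom (y' ⊗ₜ[F] a) =
      (Functor.OplaxMonoidal.η H).hom ((H.map (ε_ Y Yᘁ)).hom (tm H y' a)) := rfl
  rw [h2]
  have h3 := mum_hom_un ((H.map (ε_ Y Yᘁ)).hom (tm H y' a))
  rw [h3, tm_smul_right, map_smul, ← h3]
  have h4 : (H.map (ρ_ X).hom).hom (tm H ((𝟙 (H.obj X) : H.obj X ⟶ H.obj X).hom x) (un H)) = x :=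
    right_tm H x
  rw [h4]

/-- the map `f ↦ (f ⊗ 1) (η 1)` -/
private noncomputable def mum_hom_p (H : C ⥤ ModuleCat.{w} F) [H.Monoidal] (X Y : C)
    [HasRightDual Y] : (H.obj Y →ₗ[F] H.obj X) →ₗ[F] H.obj (X ⊗ Yᘁ) :=
  (Functor.LaxMonoidal.μ H X Yᘁ).hom ∘ₗ (LinearMap.applyₗ ((mum_hom_c H Y).hom (1 : F))) ∘ₗ
    LinearMap.rTensorHom (H.obj Yᘁ)

private theorem mum_hom_p_apply (X Y : C) [HasRightDual Y] (f : H.obj Y →ₗ[F] H.obj X) :
    mum_hom_p H X Y f = (Functor.LaxMonoidal.μ H X Yᘁ).hom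
      (LinearMap.rTensor (H.obj Yᘁ) f ((mum_hom_c H Y).hom (1 : F))) := rfl

private theorem mum_hom_pf (X Y : C) [HasRightDual Y] (v : H.obj (X ⊗ Yᘁ)) :
    mum_hom_p H X Y (mum_hom_f H X Y v) = v := by
  have h1 : mum_hom_p H X Y ∘ₗ mum_hom_f H X Y = LinearMap.id := by
    apply tm_ext H
    intro x y'
    have key : ∀ t : (H.obj Y ⊗[F] H.obj Yᘁ), (Functor.LaxMonoidal.μ H X Yᘁ).hom
        (LinearMap.rTensor (H.obj Yᘁ) (mum_hom_f H X Y (tm H x y')) t) =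
        tm H x (mum_hom_ct (mum_hom_e H Y) y' t) := by
      intro t
      induction t using TensorProduct.induction_on with
      | zero =>
        rw [map_zero, map_zero, map_zero]
        exact ((tm_smul_right H 0 x 0).symm.trans (by rw [zero_smul])).symm ▸ (by simp [tm])
      | tmul a b =>
        have h2 : (Functor.LaxMonoidal.μ H X Yᘁ).hom
          (LinearMap.rTensor (H.obj Yᘁ) (mum_hom_f H X Y (tm H x y')) (a ⊗ₜ[F] b)) =
          tm H (mum_hom_f H X Y (tm H x y') a) b := rfl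
        have h3 : mum_hom_ct (mum_hom_e H Y) y' (a ⊗ₜ[F] b) =
          ((mum_hom_e H Y).hom (y' ⊗ₜ[F] a) : F) • b := rfl
        rw [h2, h3, mum_hom_f_tm, tm_smul_left, tm_smul_right]
      | add s t hs ht => rw [map_add, map_add, map_add, tm_add_right, hs, ht]
    change mum_hom_p H X Y (mum_hom_f H X Y (tm H x y')) = tm H x y'
    rw [mum_hom_p_apply, key]
    congr 1
    exact mum_hom_zig (H.obj Y) (H.obj Yᘁ) (mum_hom_c H Y) (mum_hom_e H Y)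
      (mum_hom_hz H Y Yᘁ) y'
  exact congrArg (fun f => f v) h1

private theorem mum_hom_p_alg (X Y : C) [HasRightDual Y] {f : H.obj Y →ₗ[F] H.obj X}
    (hf : f ∈ ah H Y X) : mum_hom_p H X Y f ∈ alg H (X ⊗ Yᘁ) := by
  unfold ah at hf
  induction hf using Submodule.span_induction with
  | mem f hf =>
    obtain ⟨s, rfl⟩ := hf
    apply Submodule.subset_span
    refine ⟨η_ Y Yᘁ ≫ s ▷ Yᘁ, ?_⟩
    rw [mum_hom_p_apply, H.map_comp, Functor.Monoidal.map_whiskerRight]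
    rfl
  | zero =>
    rw [map_zero]
    exact zero_mem _
  | add f g _ _ hf hg =>
    rw [map_add]
    exact add_mem hf hg
  | smul c f _ hf =>
    rw [map_smul]
    exact Submodule.smul_mem _ _ hf

theorem tate_hom (ht : ∀ g, NatTrans.IsMonoidal (ρ g).hom) (X Y : C) [HasRightDual Y]
    (h : ∀ f : H.obj Y →ₗ[F] H.obj X,
      (∀ g y, f (((ρ g).hom.app Y).hom y) = ((ρ g).hom.app X).hom (f y)) → f ∈ ah H Y X) :
    fixed H ρ (X ⊗ Yᘁ) ≤ alg H (X ⊗ Yᘁ) := by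
  intro v hv
  rw [← mum_hom_pf X Y v]
  apply mum_hom_p_alg
  apply h
  intro g y
  have := ht g
  rw [mum_hom_f_apply, mum_hom_f_apply]
  have h1 := nat_tm H (ρ g).hom v y
  have h2 : ((ρ g).hom.app (X ⊗ Yᘁ)).hom v = v := hv g
  rw [h2] at h1
  rw [← h1]
  have h3 := congrArg (fun f => f.hom (tm H v y))
    ((ρ g).hom.naturality ((α_ X Yᘁ Y).hom ≫ X ◁ ε_ Y Yᘁ ≫ (ρ_ X).hom))
  exact h3.symm

end Pool.Agent.MUM
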