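import Pool.Agent.MUM.Defs

/-!
# MUM: the matrices `krn n h`

`krn` is multiplicative, `krn n 1 = 1`; the recursion in `n`, the splitting of `n + m` factors, and the alternating form
`E = krn n (fun _ => ε)`, `ε = !![0, 1; -1, 0]`: `(krn n h)ᵀ * E * krn n h = E` for `det (h i) = 1`.
-/

set_option linter.unusedSectionVars false
set_option linter.unusedVariables false

namespace Pool.Agent.MUM

universe w

variable {F : Type w} [Field F]

private theorem Krn_apply (n : ℕ) (h : Tri F) (a b : J n) : krn n h a b = ∏ k, ∏ i, h i (a k i) (b k i) := rfl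

private theorem Krn_kr_apply (h : Tri F) (a b : I) : kr h a b = ∏ i, h i (a i) (b i) := rfl

theorem kr_one : kr (1 : Tri F) = 1 := by
  ext a b
  rw [Krn_kr_apply]
  by_cases hab : a = b
  · rw [hab, Matrix.one_apply_eq]
    refine Finset.prod_eq_one fun i _ => ?_
    rw [Pi.one_apply, Matrix.one_apply_eq]
  · rw [Matrix.one_apply_ne hab]
    obtain ⟨i, hi⟩ := Function.ne_iff.1 hab
    refine Finset.prod_eq_zero (Finset.mem_univ i) ?_
    rw [Pi.one_apply, Matrix.one_apply_ne hi]

private theorem Krn_kr (n : ℕ) (h : Tri F) (a b : J n) : krn n h a b = ∏ k, kr h (a k) (b k) := rfl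

theorem krn_one (n : ℕ) : krn n (1 : Tri F) = 1 := by
  ext a b
  rw [Krn_kr, kr_one]
  by_cases hab : a = b
  · rw [hab, Matrix.one_apply_eq]
    exact Finset.prod_eq_one fun k _ => Matrix.one_apply_eq _
  · rw [Matrix.one_apply_ne hab]
    obtain ⟨k, hk⟩ := Function.ne_iff.1 hab
    exact Finset.prod_eq_zero (Finset.mem_univ k) (Matrix.one_apply_ne hk)

private theorem Krn_kr_mul (h h' : Tri F) : kr (h * h') = kr h * kr h' := by
  ext a b
  rw [Matrix.mul_apply, Krn_kr_apply]
  have e : ∀ i : Fin 3, (h * h') i (a i) (b i) = ∑ c : Fin 2, h i (a i) c * h' i c (b i) := fun i => by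
    rw [Pi.mul_apply, Matrix.mul_apply]
  rw [Finset.prod_congr rfl fun i _ => e i, Finset.prod_univ_sum, Fintype.piFinset_univ]
  refine Finset.sum_congr rfl fun c _ => ?_
  rw [Krn_kr_apply, Krn_kr_apply, ← Finset.prod_mul_distrib]

theorem krn_mul (n : ℕ) (h h' : Tri F) : krn n (h * h') = krn n h * krn n h' := by
  ext a b
  rw [Matrix.mul_apply, Krn_kr]
  have e : ∀ k : Fin n, kr (h * h') (a k) (b k) = ∑ c : I, kr h (a k) c * kr h' c (b k) := fun k => by
    rw [Krn_kr_mul, Matrix.mul_apply]
  rw [Finset.prod_congr rfl fun k _ => e k, Finset.prod_univ_sum, Fintype.piFinset_univ]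
  refine Finset.sum_congr rfl fun c _ => ?_
  rw [Krn_kr, Krn_kr, ← Finset.prod_mul_distrib]

theorem krn_succ {n : ℕ} (h : Tri F) (a b : J (n + 1)) :
    krn (n + 1) h a b = kr h (a 0) (b 0) * krn n h (fun k => a k.succ) (fun k => b k.succ) := by
  rw [Krn_kr, Krn_kr, Fin.prod_univ_succ]

theorem krn_add {n m : ℕ} (h : Tri F) (a b : J n) (a' b' : J m) :
    krn (n + m) h (Fin.append a a') (Fin.append b b') = krn n h a b * krn m h a' b' := by
  rw [Krn_kr, Krn_kr, Krn_kr, Fin.prod_univ_add]
  congr 1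
  · refine Finset.prod_congr rfl fun k _ => ?_
    rw [Fin.append_left, Fin.append_left]
  · refine Finset.prod_congr rfl fun k _ => ?_
    rw [Fin.append_right, Fin.append_right]

/-- the matrix of the alternating form -/
def eps : Tri F := fun _ => !![0, 1; -1, 0]

private theorem Krn_transpose (n : ℕ) (h : Tri F) : (krn n h).transpose = krn n fun i => (h i).transpose := by
  ext a b
  rfl

private theorem Krn_form (A : Matrix (Fin 2) (Fin 2) F) (hA : A.det = 1) :
    A.transpose * !![0, 1; -1, 0] * A = !![0, 1; -1, 0] := by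
  rw [Matrix.det_fin_two] at hA
  ext i j
  fin_cases i <;> fin_cases j
  · simp [Matrix.mul_apply, Fin.sum_univ_two]
    ring
  · simp [Matrix.mul_apply, Fin.sum_univ_two]
    linear_combination hA
  · simp [Matrix.mul_apply, Fin.sum_univ_two]
    linear_combination -hA
  · simp [Matrix.mul_apply, Fin.sum_univ_two]
    ring

theorem krn_dual {n : ℕ} {h : Tri F} (hh : Sl h) :
    (krn n h).transpose * krn n eps * krn n h = krn n eps := by
  rw [Krn_transpose, ← krn_mul, ← krn_mul]
  congr 1
  funext i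
  exact Krn_form (h i) (hh i)

private theorem Krn_eps_mul : (eps : Tri F) * (fun _ => !![0, -1; 1, 0]) = 1 := by
  funext i
  rw [Pi.mul_apply, Pi.one_apply]
  ext a b
  fin_cases a <;> fin_cases b <;> simp [eps, Matrix.mul_apply, Fin.sum_univ_two]

private theorem Krn_mul_eps : (fun _ => !![0, -1; 1, 0] : Tri F) * eps = 1 := by
  funext i
  rw [Pi.mul_apply, Pi.one_apply]
  ext a b
  fin_cases a <;> fin_cases b <;> simp [eps, Matrix.mul_apply, Fin.sum_univ_two]

theorem isUnit_eps (n : ℕ) : IsUnit (krn (F := F) n eps) :=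
  ⟨⟨krn n eps, krn n (fun _ => !![0, -1; 1, 0]), by rw [← krn_mul, Krn_eps_mul, krn_one],
    by rw [← krn_mul, Krn_mul_eps, krn_one]⟩, rfl⟩

end Pool.Agent.MUM
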