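import Pool.Agent.MUM.SsA

/-!
# MUM: semisimplicity, coordinates and duals

Plan. The pairing `⟨y', y⟩ = H(ε_ W Wᘁ)(tm y' y) ∈ H(𝟙) ≅ F` (`Functor.Monoidal.εIso`) between `H(Wᘁ)` and `H(W)` is perfect (zigzag, see
`pr_nondeg` in `KTT.Center`; both spaces are finite dimensional, `KTT.finite_of_rigid`) and invariant under monoidal `τ`
(`pr_tau`). So in the coordinates dual to `E` the operator `ρ g` on `H(Wᘁ)` is the transposed inverse of `c' krn N h`; multiply the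
coordinates with `krn N eps` (`isUnit_eps`): by `krn_dual` the operator becomes `c'⁻¹ krn N h`. In formulas: `E' y' = krn N eps⁻¹ (fun a => ⟨y', E⁻¹ (Pi.single a 1)⟩)`
or with the transpose; it is enough that `E'` is an equivalence with the stated property.
-/

set_option linter.unusedSectionVars false
set_option linter.unusedVariables false

namespace Pool.Agent.MUM

open CategoryTheory MonoidalCategory Limits TensorProduct Pool.Agent.KTT

universe v u w w'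

private theorem ssd_hz1 {C : Type u} [Category.{v} C] [MonoidalCategory C] {D : Type*} [Category* D]
    [MonoidalCategory D] (H : C ⥤ D) [H.Monoidal] (X Y : C) [ExactPairing X Y] :
    H.obj Y ◁ (Functor.LaxMonoidal.ε H ≫ H.map (η_ X Y) ≫ Functor.OplaxMonoidal.δ H X Y) ≫
      (α_ (H.obj Y) (H.obj X) (H.obj Y)).inv ≫
      (Functor.LaxMonoidal.μ H Y X ≫ H.map (ε_ X Y) ≫ Functor.OplaxMonoidal.η H) ▷ H.obj Y =
      (ρ_ (H.obj Y)).hom ≫ (λ_ (H.obj Y)).inv := by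
  have h := congrArg H.map (ExactPairing.coevaluation_evaluation X Y)
  rw [H.map_comp, H.map_comp, H.map_comp, Functor.Monoidal.map_whiskerLeft, Functor.Monoidal.map_whiskerRight,
    Functor.Monoidal.map_associator_inv, Functor.Monoidal.map_rightUnitor,
    Functor.Monoidal.map_leftUnitor_inv] at h
  simp only [Category.assoc, Functor.Monoidal.μ_δ_assoc] at h
  have h2 := congrArg (fun f => (H.obj Y ◁ Functor.LaxMonoidal.ε H ≫ Functor.LaxMonoidal.μ H Y (𝟙_ C)) ≫ f ≫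
    (Functor.OplaxMonoidal.δ H (𝟙_ C) Y ≫ Functor.OplaxMonoidal.η H ▷ H.obj Y)) h
  simp only [Category.assoc, Functor.Monoidal.μ_δ_assoc, Functor.Monoidal.whiskerLeft_ε_η_assoc,
    Functor.Monoidal.whiskerRight_ε_η, Category.comp_id] at h2
  simp only [MonoidalCategory.whiskerLeft_comp, comp_whiskerRight, Category.assoc]
  exact h2

private theorem ssd_zero1 {F : Type w} [Field F] (V W : ModuleCat.{w} F)
    (c : 𝟙_ (ModuleCat.{w} F) ⟶ V ⊗ W) (e : W ⊗ V ⟶ 𝟙_ (ModuleCat.{w} F))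
    (h : W ◁ c ≫ (α_ W V W).inv ≫ e ▷ W = (ρ_ W).hom ≫ (λ_ W).inv)
    (y : W) (hy : ∀ x : V, e.hom (y ⊗ₜ[F] x) = 0) : y = 0 := by
  have key : ∀ t : (V ⊗ W : ModuleCat.{w} F),
      (e ▷ W).hom ((α_ W V W).inv.hom (y ⊗ₜ[F] t)) = 0 := by
    intro t
    induction t using TensorProduct.induction_on with
    | zero => rw [TensorProduct.tmul_zero, map_zero, map_zero]
    | tmul a b =>
      have h1 : (e ▷ W).hom ((α_ W V W).inv.hom (y ⊗ₜ[F] (a ⊗ₜ[F] b))) =
          (e.hom (y ⊗ₜ[F] a)) ⊗ₜ[F] b := rfl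
      rw [h1, hy a, TensorProduct.zero_tmul]
    | add s t hs ht => rw [TensorProduct.tmul_add, map_add, map_add, hs, ht, add_zero]
  have h4 := congrArg (fun f => (λ_ W).hom.hom (f.hom (y ⊗ₜ[F] (1 : F)))) h
  have h5 : (W ◁ c ≫ (α_ W V W).inv ≫ e ▷ W).hom (y ⊗ₜ[F] (1 : F)) =
      (e ▷ W).hom ((α_ W V W).inv.hom (y ⊗ₜ[F] (c.hom (1 : F)))) := rfl
  have h6 : (λ_ W).hom.hom (((ρ_ W).hom ≫ (λ_ W).inv).hom (y ⊗ₜ[F] (1 : F))) = y := by
    have h7 : (λ_ W).hom.hom (((ρ_ W).hom ≫ (λ_ W).inv).hom (y ⊗ₜ[F] (1 : F))) =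
      (((ρ_ W).hom ≫ (λ_ W).inv) ≫ (λ_ W).hom).hom (y ⊗ₜ[F] (1 : F)) := rfl
    rw [h7, Category.assoc, Iso.inv_hom_id, Category.comp_id]
    exact one_smul F y
  rw [← h6, ← h4]
  change (λ_ W).hom.hom ((W ◁ c ≫ (α_ W V W).inv ≫ e ▷ W).hom (y ⊗ₜ[F] (1 : F))) = 0
  rw [h5, key, map_zero]

private theorem ssd_hz2 {C : Type u} [Category.{v} C] [MonoidalCategory C] {D : Type*} [Category* D]
    [MonoidalCategory D] (H : C ⥤ D) [H.Monoidal] (X Y : C) [ExactPairing X Y] :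
    (Functor.LaxMonoidal.ε H ≫ H.map (η_ X Y) ≫ Functor.OplaxMonoidal.δ H X Y) ▷ H.obj X ≫
      (α_ (H.obj X) (H.obj Y) (H.obj X)).hom ≫
      H.obj X ◁ (Functor.LaxMonoidal.μ H Y X ≫ H.map (ε_ X Y) ≫ Functor.OplaxMonoidal.η H) =
      (λ_ (H.obj X)).hom ≫ (ρ_ (H.obj X)).inv := by
  have h := congrArg H.map (ExactPairing.evaluation_coevaluation X Y)
  rw [H.map_comp, H.map_comp, H.map_comp, Functor.Monoidal.map_whiskerLeft, Functor.Monoidal.map_whiskerRight,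
    Functor.Monoidal.map_associator, Functor.Monoidal.map_leftUnitor,
    Functor.Monoidal.map_rightUnitor_inv] at h
  simp only [Category.assoc, Functor.Monoidal.μ_δ_assoc] at h
  have h2 := congrArg (fun f => (Functor.LaxMonoidal.ε H ▷ H.obj X ≫ Functor.LaxMonoidal.μ H (𝟙_ C) X) ≫ f ≫
    (Functor.OplaxMonoidal.δ H X (𝟙_ C) ≫ H.obj X ◁ Functor.OplaxMonoidal.η H)) h
  simp only [Category.assoc, Functor.Monoidal.μ_δ_assoc, Functor.Monoidal.whiskerRight_ε_η_assoc,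
    Functor.Monoidal.whiskerLeft_ε_η, Category.comp_id] at h2
  simp only [MonoidalCategory.whiskerLeft_comp, comp_whiskerRight, Category.assoc]
  exact h2

private theorem ssd_zero2 {F : Type w} [Field F] (V W : ModuleCat.{w} F)
    (c : 𝟙_ (ModuleCat.{w} F) ⟶ V ⊗ W) (e : W ⊗ V ⟶ 𝟙_ (ModuleCat.{w} F))
    (h : c ▷ V ≫ (α_ V W V).hom ≫ V ◁ e = (λ_ V).hom ≫ (ρ_ V).inv)
    (x : V) (hx : ∀ y : W, e.hom (y ⊗ₜ[F] x) = 0) : x = 0 := by
  have key : ∀ t : (V ⊗ W : ModuleCat.{w} F),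
      (V ◁ e).hom ((α_ V W V).hom.hom (t ⊗ₜ[F] x)) = 0 := by
    intro t
    induction t using TensorProduct.induction_on with
    | zero => rw [TensorProduct.zero_tmul, map_zero, map_zero]
    | tmul a b =>
      have h1 : (V ◁ e).hom ((α_ V W V).hom.hom ((a ⊗ₜ[F] b) ⊗ₜ[F] x)) =
          a ⊗ₜ[F] (e.hom (b ⊗ₜ[F] x)) := rfl
      rw [h1, hx b, TensorProduct.tmul_zero]
    | add s t hs ht => rw [TensorProduct.add_tmul, map_add, map_add, hs, ht, add_zero]
  have h4 := congrArg (fun f => (ρ_ V).hom.hom (f.hom ((1 : F) ⊗ₜ[F] x))) h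
  have h5 : (c ▷ V ≫ (α_ V W V).hom ≫ V ◁ e).hom ((1 : F) ⊗ₜ[F] x) =
      (V ◁ e).hom ((α_ V W V).hom.hom (c.hom (1 : F) ⊗ₜ[F] x)) := rfl
  have h6 : (ρ_ V).hom.hom (((λ_ V).hom ≫ (ρ_ V).inv).hom ((1 : F) ⊗ₜ[F] x)) = x := by
    have h7 : (ρ_ V).hom.hom (((λ_ V).hom ≫ (ρ_ V).inv).hom ((1 : F) ⊗ₜ[F] x)) =
      (((λ_ V).hom ≫ (ρ_ V).inv) ≫ (ρ_ V).hom).hom ((1 : F) ⊗ₜ[F] x) := rfl
    rw [h7, Category.assoc, Iso.inv_hom_id, Category.comp_id]
    exact one_smul F x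
  rw [← h6, ← h4]
  change (ρ_ V).hom.hom ((c ▷ V ≫ (α_ V W V).hom ≫ V ◁ e).hom ((1 : F) ⊗ₜ[F] x)) = 0
  rw [h5, key, map_zero]

variable {C : Type u} [Category.{v} C] [MonoidalCategory C]
  {F : Type w} [Field F] {H : C ⥤ ModuleCat.{w} F} [H.Monoidal]
  {G : Type w'} [Group G] {ρ : G →* Aut H} {B : C}

/-- The pairing `H(Xᘁ) × H(X) → F`. -/
private noncomputable def ssd_pr (H : C ⥤ ModuleCat.{w} F) [H.Monoidal] (X : C) [HasRightDual X] :
    H.obj Xᘁ →ₗ[F] H.obj X →ₗ[F] F :=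
  LinearMap.mk₂ F (fun y x => ((Functor.LaxMonoidal.μ H Xᘁ X ≫ H.map (ε_ X Xᘁ) ≫
      Functor.OplaxMonoidal.η H).hom (y ⊗ₜ[F] x) : F))
    (fun y y' x => by rw [TensorProduct.add_tmul, map_add])
    (fun c y x => by rw [← TensorProduct.smul_tmul', map_smul])
    (fun y x x' => by rw [TensorProduct.tmul_add, map_add])
    (fun c y x => by rw [TensorProduct.tmul_smul, map_smul])

private theorem ssd_pr_apply (X : C) [HasRightDual X] (y : H.obj Xᘁ) (x : H.obj X) :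
    ssd_pr H X y x = ((Functor.LaxMonoidal.μ H Xᘁ X ≫ H.map (ε_ X Xᘁ) ≫
      Functor.OplaxMonoidal.η H).hom (y ⊗ₜ[F] x) : F) := rfl

private theorem ssd_nd1 (X : C) [HasRightDual X] (y : H.obj Xᘁ) (h : ∀ x, ssd_pr H X y x = 0) :
    y = 0 :=
  ssd_zero1 (H.obj X) (H.obj Xᘁ) _ _ (ssd_hz1 H X Xᘁ) y h

private theorem ssd_nd2 (X : C) [HasRightDual X] (x : H.obj X) (h : ∀ y, ssd_pr H X y x = 0) :
    x = 0 :=
  ssd_zero2 (H.obj X) (H.obj Xᘁ) _ _ (ssd_hz2 H X Xᘁ) x h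

private theorem ssd_unit (τ : H ⟶ H) [NatTrans.IsMonoidal τ] : τ.app (𝟙_ C) = 𝟙 _ := by
  have h := NatTrans.IsMonoidal.unit (τ := τ)
  have h1 := congrArg (fun f => Functor.OplaxMonoidal.η H ≫ f) h
  simpa only [Functor.Monoidal.η_ε_assoc, Functor.Monoidal.η_ε] using h1

private theorem ssd_tau (τ : H ⟶ H) [NatTrans.IsMonoidal τ] (X : C) [HasRightDual X]
    (y : H.obj Xᘁ) (x : H.obj X) :
    ssd_pr H X ((τ.app Xᘁ).hom y) ((τ.app X).hom x) = ssd_pr H X y x := by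
  have h2 := congrArg (fun f => f.hom (y ⊗ₜ[F] x)) (NatTrans.IsMonoidal.tensor (τ := τ) Xᘁ X)
  have h3 := congrArg (fun f => f.hom ((Functor.LaxMonoidal.μ H Xᘁ X).hom (y ⊗ₜ[F] x)))
    (τ.naturality (ε_ X Xᘁ))
  rw [ssd_unit τ, Category.comp_id] at h3
  have h4 : (τ.app (Xᘁ ⊗ X)).hom ((Functor.LaxMonoidal.μ H Xᘁ X).hom (y ⊗ₜ[F] x)) =
      (Functor.LaxMonoidal.μ H Xᘁ X).hom ((τ.app Xᘁ).hom y ⊗ₜ[F] (τ.app X).hom x) := h2
  have h5 : (H.map (ε_ X Xᘁ)).hom ((Functor.LaxMonoidal.μ H Xᘁ X).hom (y ⊗ₜ[F] x)) =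
      (H.map (ε_ X Xᘁ)).hom ((τ.app (Xᘁ ⊗ X)).hom
        ((Functor.LaxMonoidal.μ H Xᘁ X).hom (y ⊗ₜ[F] x))) := h3
  have h6 : ssd_pr H X ((τ.app Xᘁ).hom y) ((τ.app X).hom x) =
      (Functor.OplaxMonoidal.η H).hom ((H.map (ε_ X Xᘁ)).hom
        ((Functor.LaxMonoidal.μ H Xᘁ X).hom ((τ.app Xᘁ).hom y ⊗ₜ[F] (τ.app X).hom x))) := rfl
  have h7 : ssd_pr H X y x =
      (Functor.OplaxMonoidal.η H).hom ((H.map (ε_ X Xᘁ)).hom
        ((Functor.LaxMonoidal.μ H Xᘁ X).hom (y ⊗ₜ[F] x))) := rfl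
  rw [h6, h7, h5, h4]

private theorem ssd_rank (X : C) [HasRightDual X] :
    FiniteDimensional F (H.obj Xᘁ) ∧
      Module.finrank F (H.obj Xᘁ) = Module.finrank F (H.obj X) := by
  have := finite_of_rigid H X
  have hi1 : Function.Injective (ssd_pr H X) := by
    rw [← LinearMap.ker_eq_bot, LinearMap.ker_eq_bot']
    intro y hy
    exact ssd_nd1 X y fun x => by rw [hy, LinearMap.zero_apply]
  have hf : FiniteDimensional F (H.obj Xᘁ) := FiniteDimensional.of_injective (ssd_pr H X) hi1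
  have hi2 : Function.Injective (ssd_pr H X).flip := by
    rw [← LinearMap.ker_eq_bot, LinearMap.ker_eq_bot']
    intro x hx
    refine ssd_nd2 X x fun y => ?_
    have h1 := LinearMap.congr_fun hx y
    rwa [LinearMap.flip_apply, LinearMap.zero_apply] at h1
  refine ⟨hf, le_antisymm ?_ ?_⟩
  · have h1 := LinearMap.finrank_le_finrank_of_injective hi1
    rwa [Subspace.dual_finrank_eq] at h1
  · have h1 := LinearMap.finrank_le_finrank_of_injective hi2
    rwa [Subspace.dual_finrank_eq] at h1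

theorem cd_dual (e : H.obj B ≃ₗ[F] (I → F)) (ht : ∀ g, NatTrans.IsMonoidal (ρ g).hom)
    {W : C} [HasRightDual W] {N : ℕ} (h : Cd e ρ W N) : Cd e ρ Wᘁ N := by
  obtain ⟨E, hE⟩ := h
  obtain ⟨hfin, hrk⟩ := ssd_rank (H := H) W
  have hfW := finite_of_rigid H W
  -- the coordinates dual to `E`
  let Φ : H.obj Wᘁ →ₗ[F] (J N → F) :=
    { toFun := fun y a => ssd_pr H W y (E.symm (Pi.single a 1))
      map_add' := fun y y' => by
        funext a
        rw [map_add, LinearMap.add_apply]; rfl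
      map_smul' := fun c y => by
        funext a
        rw [map_smul, LinearMap.smul_apply]; rfl }
  have hΦ : ∀ y (x : H.obj W), ssd_pr H W y x = Φ y ⬝ᵥ E x := by
    intro y x
    have h1 : x = ∑ a, E x a • E.symm (Pi.single a (1 : F)) := by
      apply E.injective
      rw [map_sum]
      funext b
      rw [Finset.sum_apply]
      rw [Finset.sum_eq_single b]
      · rw [map_smul, LinearEquiv.apply_symm_apply, Pi.smul_apply, Pi.single_eq_same, smul_eq_mul,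
          mul_one]
      · intro a _ hab
        rw [map_smul, LinearEquiv.apply_symm_apply, Pi.smul_apply, Pi.single_eq_of_ne (Ne.symm hab),
          smul_zero]
      · intro hb
        exact absurd (Finset.mem_univ b) hb
    conv_lhs => rw [h1]
    rw [map_sum, dotProduct]
    refine Finset.sum_congr rfl fun a _ => ?_
    rw [map_smul, smul_eq_mul, mul_comm]
    rfl
  have hinj : Function.Injective Φ := by
    rw [← LinearMap.ker_eq_bot, LinearMap.ker_eq_bot']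
    intro y hy
    refine ssd_nd1 W y fun x => ?_
    rw [hΦ, hy, zero_dotProduct]
  have hdim : Module.finrank F (H.obj Wᘁ) = Module.finrank F (J N → F) := by
    rw [hrk, LinearEquiv.finrank_eq E]
  let Φe : H.obj Wᘁ ≃ₗ[F] (J N → F) := LinearEquiv.ofInjectiveOfFinrankEq Φ hinj hdim
  have hΦe : ∀ y, Φe y = Φ y := fun y => rfl
  have hu := isUnit_eps (F := F) N
  obtain ⟨ε', h1, h2⟩ : ∃ ε' : Matrix (J N) (J N) F, krn N eps * ε' = 1 ∧ ε' * krn N eps = 1 := by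
    obtain ⟨u, hu⟩ := hu
    exact ⟨((u⁻¹ : (Matrix (J N) (J N) F)ˣ) : Matrix (J N) (J N) F), by rw [← hu]; exact u.mul_inv,
      by rw [← hu]; exact u.inv_mul⟩
  let Ep : (J N → F) ≃ₗ[F] (J N → F) := Matrix.toLin'OfInv h1 h2
  have hEp : ∀ v, Ep v = ε'.mulVec v := fun v => rfl
  refine ⟨Φe.trans Ep, fun g c h hs ha => ?_⟩
  obtain ⟨c', hc'⟩ := hE g c h hs ha
  refine ⟨c'⁻¹, fun y => ?_⟩
  set M := krn N h with hM
  have hdual : M.transpose * krn N eps * M = krn N eps := krn_dual hs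
  have hmon := ht g
  -- the fundamental relation
  have hrel : ∀ y : H.obj Wᘁ, c' • M.transpose.mulVec (Φ (((ρ g).hom.app Wᘁ).hom y)) = Φ y := by
    intro y
    funext a
    have h3 := ssd_tau (ρ g).hom W y (E.symm (Pi.single a 1))
    rw [hΦ, hΦ, hc', LinearEquiv.apply_symm_apply] at h3
    rw [dotProduct_smul, dotProduct_single, mul_one] at h3
    rw [← h3, Pi.smul_apply, Matrix.dotProduct_mulVec, dotProduct_single, mul_one,
      ← Matrix.vecMul_transpose, Matrix.transpose_transpose]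
  have hrel' : ∀ y : H.obj Wᘁ, c' • (M.transpose * krn N eps).mulVec
      ((Φe.trans Ep) (((ρ g).hom.app Wᘁ).hom y)) = (krn N eps).mulVec ((Φe.trans Ep) y) := by
    intro y
    rw [LinearEquiv.trans_apply, LinearEquiv.trans_apply, hΦe, hΦe, hEp, hEp, Matrix.mulVec_mulVec,
      Matrix.mulVec_mulVec, Matrix.mul_assoc, h1, Matrix.mul_one, Matrix.one_mulVec]
    exact hrel y
  have hdet : IsUnit (M.transpose * krn N eps) := by
    have h3 : IsUnit (M.transpose * krn N eps * M) := by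
      rw [hdual]
      exact isUnit_eps N
    rw [Matrix.isUnit_iff_isUnit_det] at h3 ⊢
    rw [Matrix.det_mul] at h3
    exact isUnit_of_mul_isUnit_left h3
  have hinj2 := Matrix.mulVec_injective_of_isUnit hdet
  by_cases hc0 : c' = 0
  · have h3 : ∀ y : H.obj Wᘁ, (Φe.trans Ep) y = 0 := by
      intro y
      have h4 := hrel' y
      rw [hc0, zero_smul] at h4
      have h5 := congrArg ε'.mulVec h4
      rw [Matrix.mulVec_mulVec, h2, Matrix.one_mulVec, Matrix.mulVec_zero] at h5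
      exact h5.symm
    rw [h3, h3, Matrix.mulVec_zero, smul_zero]
  · have h4 := hrel' y
    have h6 : (krn N eps).mulVec ((Φe.trans Ep) y) =
        (M.transpose * krn N eps).mulVec (M.mulVec ((Φe.trans Ep) y)) := by
      rw [Matrix.mulVec_mulVec, hdual]
    rw [h6, ← Matrix.mulVec_smul] at h4
    have h5 := hinj2 h4
    rw [← h5, smul_smul, inv_mul_cancel₀ hc0, one_smul]

end Pool.Agent.MUM
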