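import Pool.Agent.MUM.Defs

/-!
# MUM: every word is `B^(⊗ n) ⊗ (B^(⊗ m))ᘁ`

Plan. `pw B n ⊗ pw B m ≅ pw B (n + m)` (associator, induction; cast of `n + 1 + m`). Induction on `Word`: base: `n = 1`, `m = 0`,
`𝟙ᘁ ≅ 𝟙` (`rightDualIso` with the exact pairing of the unit, or the instance `hasRightDualUnit`); tensor: exchange the middle factors
(`β`), `Yᘁ ⊗ Y'ᘁ ≅ Y'ᘁ ⊗ Yᘁ ≅ (Y ⊗ Y')ᘁ` (`rightDualTensorIso`); dual: `(X ⊗ Yᘁ)ᘁ ≅ Yᘁᘁ ⊗ Xᘁ`, `Yᘁᘁ ≅ Y` by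
`rightDualIso HasRightDual.exact (BraidedCategory.exactPairing_swap Y Yᘁ)` (name space to be looked up in
`Mathlib/CategoryTheory/Monoidal/Rigid/Braided.lean`).
-/

set_option linter.unusedSectionVars false
set_option linter.unusedVariables false

namespace Pool.Agent.MUM

open CategoryTheory MonoidalCategory Limits TensorProduct Pool.Agent.KTT

universe v u

variable {C : Type u} [Category.{v} C] [MonoidalCategory C] [BraidedCategory C]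
  [RightRigidCategory C]

/-- `B^(⊗ n) ⊗ B^(⊗ m) ≅ B^(⊗ (m + n))`. -/
private noncomputable def wi_pw (B : C) (m : ℕ) : (n : ℕ) → (pw B n ⊗ pw B m ≅ pw B (m + n))
  | 0 => λ_ (pw B m)
  | n + 1 => α_ B (pw B n) (pw B m) ≪≫ whiskerLeftIso B (wi_pw B m n)

/-- Isomorphic objects have isomorphic duals. -/
private noncomputable def wi_dual {X Y : C} (i : X ≅ Y) : Xᘁ ≅ Yᘁ :=
  rightDualIso (HasRightDual.exact : ExactPairing X Xᘁ)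
    (exactPairingCongrLeft i : ExactPairing X Yᘁ)

/-- The dual of the unit. -/
private noncomputable def wi_unit (B : C) : (pw B 0)ᘁ ≅ 𝟙_ C :=
  rightDualIso (HasRightDual.exact : ExactPairing (pw B 0) (pw B 0)ᘁ)
    (exactPairingUnit : ExactPairing (𝟙_ C) (𝟙_ C))

/-- The double dual. -/
private noncomputable def wi_dd (X : C) : (Xᘁ : C)ᘁ ≅ X :=
  rightDualIso (HasRightDual.exact : ExactPairing (Xᘁ : C) ((Xᘁ : C)ᘁ : C))
    (BraidedCategory.exactPairing_swap X (Xᘁ : C))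

/-- The exchange of the middle factors. -/
private noncomputable def wi_mid (A D A' D' : C) :
    (A ⊗ D) ⊗ (A' ⊗ D') ≅ (A ⊗ A') ⊗ (D ⊗ D') :=
  α_ A D (A' ⊗ D') ≪≫
    whiskerLeftIso A ((α_ D A' D').symm ≪≫ whiskerRightIso (β_ D A') D' ≪≫ α_ A' D D') ≪≫
    (α_ A A' (D ⊗ D')).symm

theorem word_iso {B W : C} (h : Word B W) :
    ∃ n m : ℕ, Nonempty (W ≅ pw B n ⊗ (pw B m)ᘁ) := by
  induction h with
  | base =>
    exact ⟨1, 0, ⟨(ρ_ B).symm ≪≫ (ρ_ (B ⊗ 𝟙_ C)).symm ≪≫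
      whiskerLeftIso (B ⊗ 𝟙_ C) (wi_unit B).symm⟩⟩
  | tensor X Y hX hY ihX ihY =>
    obtain ⟨n, m, ⟨i⟩⟩ := ihX
    obtain ⟨n', m', ⟨j⟩⟩ := ihY
    refine ⟨n' + n, m + m', ⟨(i ⊗ᵢ j) ≪≫ wi_mid _ _ _ _ ≪≫ ?_⟩⟩
    exact (wi_pw B n' n) ⊗ᵢ ((rightDualTensorIso (pw B m') (pw B m)).symm ≪≫
      wi_dual (wi_pw B m m'))
  | dual X hX ih =>
    obtain ⟨n, m, ⟨i⟩⟩ := ih
    refine ⟨m, n, ⟨wi_dual i ≪≫ rightDualTensorIso (pw B n) (pw B m)ᘁ ≪≫ ?_⟩⟩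
    exact whiskerRightIso (wi_dd (pw B m)) (pw B n)ᘁ

end Pool.Agent.MUM
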