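import Pool.Agent.MUM.Ah
import Pool.Agent.MUM.Krn

/-!
# MUM: coordinates on the tensor powers of `B`
-/

set_option linter.unusedSectionVars false
set_option linter.unusedVariables false

namespace Pool.Agent.MUM

open CategoryTheory MonoidalCategory Limits TensorProduct Pool.Agent.KTT

universe v u w w'

variable {C : Type u} [Category.{v} C] [MonoidalCategory C]
  {F : Type w} [Field F] (H : C ⥤ ModuleCat.{w} F) [H.Monoidal]

private theorem pw_basis {B : C} (e : H.obj B ≃ₗ[F] (I → F)) (n : ℕ) :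
    ∃ b : Module.Basis (J n) F (H.obj (pw B n)), ∀ a, b a = mon H e n a := by
  induction n with
  | zero =>
    let L : F ≃ₗ[F] H.obj (𝟙_ C) := (Functor.Monoidal.εIso H).toLinearEquiv
    refine ⟨(Module.Basis.singleton (J 0) F).map L, fun a => ?_⟩
    rw [Module.Basis.map_apply, Module.Basis.singleton_apply]
    rfl
  | succ n ih =>
    obtain ⟨bP, hbP⟩ := ih
    let L : (H.obj B) ⊗[F] (H.obj (pw B n)) ≃ₗ[F] H.obj (B ⊗ pw B n) :=
      (Functor.Monoidal.μIso H B (pw B n)).toLinearEquiv
    let bB : Module.Basis I F (H.obj B) := (Pi.basisFun F I).map e.symm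
    have hbB : ∀ a, bB a = bv H e a := by
      intro a
      change (Pi.basisFun F I).map e.symm a = _
      rw [Module.Basis.map_apply, Pi.basisFun_apply]
      rfl
    refine ⟨((bB.tensorProduct bP).reindex (Fin.consEquiv fun _ => I)).map L, fun a => ?_⟩
    rw [Module.Basis.map_apply, Module.Basis.reindex_apply]
    have h1 : (Fin.consEquiv (fun _ => I)).symm a = (a 0, fun k : Fin n => a k.succ) := rfl
    rw [h1, Module.Basis.tensorProduct_apply, hbB, hbP]
    rfl

theorem exists_cd {B : C} (e : H.obj B ≃ₗ[F] (I → F)) (n : ℕ) :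
    ∃ E : H.obj (pw B n) ≃ₗ[F] (J n → F), ∀ a, E (mon H e n a) = Pi.single a 1 := by
  classical
  obtain ⟨b, hb⟩ := pw_basis H e n
  refine ⟨b.equivFun, fun a => ?_⟩
  rw [← hb a]
  funext j
  rw [Module.Basis.equivFun_self, Pi.single_apply]
  exact if_congr eq_comm rfl rfl

/-- The coordinates on `H(B^(⊗ n))`. -/
noncomputable def cd {B : C} (e : H.obj B ≃ₗ[F] (I → F)) (n : ℕ) :
    H.obj (pw B n) ≃ₗ[F] (J n → F) := (exists_cd H e n).choose

theorem cd_mon {B : C} (e : H.obj B ≃ₗ[F] (I → F)) (n : ℕ) (a : J n) :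
    cd H e n (mon H e n a) = Pi.single a 1 := (exists_cd H e n).choose_spec a

theorem cd_symm_single {B : C} (e : H.obj B ≃ₗ[F] (I → F)) (n : ℕ) (a : J n) :
    (cd H e n).symm (Pi.single a 1) = mon H e n a := by
  rw [LinearEquiv.symm_apply_eq, cd_mon]

/-- two linear maps which agree on all `mon n a` are equal -/
theorem mon_ext {B : C} (e : H.obj B ≃ₗ[F] (I → F)) {n : ℕ} {V : Type*} [AddCommGroup V]
    [Module F V] {f g : H.obj (pw B n) →ₗ[F] V} (h : ∀ a, f (mon H e n a) = g (mon H e n a)) :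
    f = g := by
  have h1 : f ∘ₗ (cd H e n).symm.toLinearMap = g ∘ₗ (cd H e n).symm.toLinearMap := by
    refine LinearMap.pi_ext fun a x => ?_
    have h2 : (Pi.single a x : J n → F) = x • Pi.single a 1 := by
      rw [← Pi.single_smul, smul_eq_mul, mul_one]
    rw [h2, map_smul, map_smul]
    congr 1
    change f ((cd H e n).symm (Pi.single a 1)) = g ((cd H e n).symm (Pi.single a 1))
    rw [cd_symm_single]
    exact h a
  refine LinearMap.ext fun v => ?_
  have h2 := LinearMap.congr_fun h1 (cd H e n v)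
  change f ((cd H e n).symm (cd H e n v)) = g ((cd H e n).symm (cd H e n v)) at h2
  rwa [LinearEquiv.symm_apply_apply] at h2

private noncomputable def pwL {X Y : C} (y : H.obj Y) : H.obj X →ₗ[F] H.obj (X ⊗ Y) where
  toFun x := tm H x y
  map_add' a b := tm_add_left H a b y
  map_smul' c a := tm_smul_left H c a y

private noncomputable def pwR {X Y : C} (x : H.obj X) : H.obj Y →ₗ[F] H.obj (X ⊗ Y) where
  toFun y := tm H x y
  map_add' a b := tm_add_right H x a b
  map_smul' c a := tm_smul_right H c x a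

private theorem pw_tm_sum {X Y : C} {ι κ : Type} [Fintype ι] [Fintype κ] (c : ι → F) (d : κ → F)
    (x : ι → H.obj X) (y : κ → H.obj Y) :
    tm H (∑ i, c i • x i) (∑ j, d j • y j) = ∑ i, ∑ j, (c i * d j) • tm H (x i) (y j) := by
  change pwL H (∑ j, d j • y j) (∑ i, c i • x i) = _
  rw [map_sum]
  refine Finset.sum_congr rfl fun i _ => ?_
  rw [map_smul]
  change c i • pwR H (x i) (∑ j, d j • y j) = _
  rw [map_sum, Finset.smul_sum]
  refine Finset.sum_congr rfl fun j _ => ?_
  rw [map_smul, smul_smul]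
  rfl

variable {G : Type w'} [Group G] (ρ : G →* Aut H) {B : C}

private theorem pw_act_bv (e : H.obj B ≃ₗ[F] (I → F)) {g : G} {c : F}
    {h : Tri F} (hg : Acts H ρ e g c h) (a : I) :
    ((ρ g).hom.app B).hom (bv H e a) = c • ∑ b, kr h b a • bv H e b := by
  apply e.injective
  rw [hg]
  have h1 : e (bv H e a) = Pi.single a 1 := e.apply_symm_apply _
  rw [h1, map_smul, map_sum]
  congr 1
  rw [Matrix.mulVec_single_one]
  funext j
  rw [Finset.sum_apply]
  have h2 : ∀ b, (e (kr h b a • bv H e b)) j = if b = j then kr h b a else 0 := by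
    intro b
    have h3 : e (bv H e b) = Pi.single b 1 := e.apply_symm_apply _
    rw [map_smul, h3, Pi.smul_apply, Pi.single_apply, smul_eq_mul, mul_ite, mul_one, mul_zero]
    exact if_congr eq_comm rfl rfl
  rw [Finset.sum_congr rfl fun b _ => h2 b, Finset.sum_ite_eq' Finset.univ j]
  rw [if_pos (Finset.mem_univ j)]
  rfl

private theorem pw_act_mon (e : H.obj B ≃ₗ[F] (I → F)) {g : G}
    [NatTrans.IsMonoidal (ρ g).hom] {c : F} {h : Tri F} (hg : Acts H ρ e g c h) (n : ℕ)
    (a : J n) : ((ρ g).hom.app (pw B n)).hom (mon H e n a) =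
      c ^ n • ∑ b, krn n h b a • mon H e n b := by
  induction n with
  | zero =>
    have h1 : mon H e 0 a = un H := rfl
    rw [h1]
    refine (nat_un H (ρ g).hom).trans ?_
    rw [pow_zero, one_smul, Fintype.sum_unique]
    have h2 : ∀ x : J 0, krn 0 h x a = 1 := fun x => rfl
    rw [h2, one_smul]
    rfl
  | succ n ih =>
    have h1 : mon H e (n + 1) a = tm H (bv H e (a 0)) (mon H e n fun k => a k.succ) := rfl
    rw [h1]
    refine (nat_tm H (ρ g).hom (bv H e (a 0)) (mon H e n fun k => a k.succ)).trans ?_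
    rw [pw_act_bv H ρ e hg, ih, tm_smul_left, tm_smul_right, pw_tm_sum, smul_smul, pow_succ',
      ← Fintype.sum_prod_type', ← Equiv.sum_comp (Fin.consEquiv fun _ => I)]
    congr 1
    refine Finset.sum_congr rfl fun x _ => ?_
    rw [krn_succ]
    rfl

theorem act_cd (e : H.obj B ≃ₗ[F] (I → F)) {g : G} [NatTrans.IsMonoidal (ρ g).hom] {c : F}
    {h : Tri F} (hg : Acts H ρ e g c h) (n : ℕ) (v : H.obj (pw B n)) :
    cd H e n (((ρ g).hom.app (pw B n)).hom v) = c ^ n • (krn n h).mulVec (cd H e n v) := by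
  have h1 : (cd H e n).toLinearMap ∘ₗ ((ρ g).hom.app (pw B n)).hom =
      (c ^ n • (krn n h).mulVecLin) ∘ₗ (cd H e n).toLinearMap := by
    refine mon_ext H e fun a => ?_
    change cd H e n (((ρ g).hom.app (pw B n)).hom (mon H e n a)) =
      c ^ n • (krn n h).mulVec (cd H e n (mon H e n a))
    rw [pw_act_mon H ρ e hg, cd_mon, map_smul, map_sum, Matrix.mulVec_single_one]
    congr 1
    funext j
    rw [Finset.sum_apply]
    have h2 : ∀ b, (cd H e n (krn n h b a • mon H e n b)) j =
        if b = j then krn n h b a else 0 := by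
      intro b
      rw [map_smul, cd_mon, Pi.smul_apply, Pi.single_apply, smul_eq_mul, mul_ite, mul_one,
        mul_zero]
      exact if_congr eq_comm rfl rfl
    rw [Finset.sum_congr rfl fun b _ => h2 b, Finset.sum_ite_eq' Finset.univ j]
    rw [if_pos (Finset.mem_univ j)]
    rfl
  exact LinearMap.congr_fun h1 v

/-- the scalar is not zero -/
theorem acts_ne_zero (e : H.obj B ≃ₗ[F] (I → F)) {g : G} {c : F} {h : Tri F}
    (hg : Acts H ρ e g c h) : c ≠ 0 := by
  intro hc
  have h1 : ((ρ g).hom.app B).hom (bv H e 0) = 0 := by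
    apply e.injective
    rw [hg, hc, zero_smul, map_zero]
  have h2 : ((ρ g).inv.app B).hom (((ρ g).hom.app B).hom (bv H e 0)) = bv H e 0 := by
    have h3 : (ρ g).hom.app B ≫ (ρ g).inv.app B = 𝟙 (H.obj B) := by
      rw [← NatTrans.comp_app, Iso.hom_inv_id, NatTrans.id_app]
    have h4 := congrArg (fun f => f.hom (bv H e 0)) h3
    exact h4
  rw [h1, map_zero] at h2
  have h5 : e (bv H e 0) = Pi.single 0 1 := e.apply_symm_apply _
  rw [← h2, map_zero] at h5
  have h6 := congrFun h5 0
  rw [Pi.single_eq_same, Pi.zero_apply] at h6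
  exact zero_ne_one h6

end Pool.Agent.MUM
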