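import Pool.Agent.MUM.Pol

/-!
# MUM: Schur-Weyl duality for three groups

The group of the triples of permutations acts on the functions on `J n`; its group algebra is semisimple, and the
endomorphisms of this module are the combinations of the matrices `krn n h`. The density theorem gives the double centralizer.
-/

set_option linter.unusedSectionVars false
set_option linter.unusedVariables false

namespace Pool.Agent.MUM

universe w

variable {F : Type w} [Field F]

theorem pact_mul {n : ℕ} (σ τ : Fin 3 → Equiv.Perm (Fin n)) (a : J n) :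
    pact σ (pact τ a) = pact (τ * σ) a := rfl

theorem perm_mul {n : ℕ} (σ τ : Fin 3 → Equiv.Perm (Fin n)) :
    perm (F := F) n (σ * τ) = perm n σ ∘ₗ perm n τ := rfl

theorem perm_one {n : ℕ} : perm (F := F) n (1 : Fin 3 → Equiv.Perm (Fin n)) = LinearMap.id := rfl

/-- the group -/
private abbrev schS (n : ℕ) : Type := Fin 3 → Equiv.Perm (Fin n)

/-- the representation -/
private noncomputable def schRep (F : Type w) [Field F] (n : ℕ) : Representation F (schS n) (J n → F) where
  toFun := perm n
  map_one' := perm_one
  map_mul' := perm_mul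

private theorem sch_pact_inv {n : ℕ} (σ : schS n) (a : J n) : pact σ (pact σ⁻¹ a) = a := by
  rw [pact_mul, inv_mul_cancel]
  rfl

private theorem sch_pact_inv' {n : ℕ} (σ : schS n) (a : J n) : pact σ⁻¹ (pact σ a) = a := by
  rw [pact_mul, mul_inv_cancel]
  rfl

/-- `pact σ` as a permutation -/
private def schE {n : ℕ} (σ : schS n) : Equiv.Perm (J n) where
  toFun := pact σ
  invFun := pact σ⁻¹
  left_inv := sch_pact_inv' σ
  right_inv := sch_pact_inv σ

private theorem sch_krn_inv {n : ℕ} (h : Tri F) (σ : schS n) (a b : J n) :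
    krn n h (pact σ a) (pact σ b) = krn n h a b := by
  show (∏ k, ∏ i, h i (a (σ i k) i) (b (σ i k) i)) = ∏ k, ∏ i, h i (a k i) (b k i)
  rw [Finset.prod_comm, Finset.prod_comm (f := fun k i => h i (a k i) (b k i))]
  refine Finset.prod_congr rfl fun i _ => ?_
  exact Equiv.prod_comp (σ i) (fun k => h i (a k i) (b k i))

private theorem sch_comm {n : ℕ} (X : Matrix (J n) (J n) F) (σ : schS n)
    (hX : ∀ a b, X (pact σ a) (pact σ b) = X a b) (v : J n → F) :
    perm n σ (X.mulVec v) = X.mulVec (perm n σ v) := by
  funext a
  show ∑ b, X (pact σ a) b * v b = ∑ b, X a b * v (pact σ b)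
  rw [← Equiv.sum_comp (schE σ)]
  refine Finset.sum_congr rfl fun b _ => ?_
  show X (pact σ a) (pact σ b) * v (pact σ b) = _
  rw [hX]

private theorem sch_sym {n : ℕ} (X : Matrix (J n) (J n) F) (σ : schS n)
    (h : ∀ v, perm n σ (X.mulVec v) = X.mulVec (perm n σ v)) (a b : J n) :
    X (pact σ a) (pact σ b) = X a b := by
  have h1 := congrFun (h (Pi.single (pact σ b) 1)) a
  have h2 : perm (F := F) n σ (Pi.single (pact σ b) 1) = Pi.single b 1 := by
    funext c
    show (Pi.single (pact σ b) 1 : J n → F) (pact σ c) = (Pi.single b 1 : J n → F) c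
    by_cases hc : c = b
    · subst hc
      rw [Pi.single_eq_same, Pi.single_eq_same]
    · have hc' : pact σ c ≠ pact σ b := fun e => hc ((schE σ).injective e)
      rw [Pi.single_eq_of_ne hc', Pi.single_eq_of_ne hc]
  rw [h2] at h1
  have h3 : perm (F := F) n σ (X.mulVec (Pi.single (pact σ b) 1)) a =
      X (pact σ a) (pact σ b) := by
    show X.mulVec (Pi.single (pact σ b) 1) (pact σ a) = _
    rw [Matrix.mulVec_single_one]
    rfl
  rw [h3, Matrix.mulVec_single_one] at h1
  exact h1

/-- the module structure over the group algebra -/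
private noncomputable abbrev schM (F : Type w) [Field F] (n : ℕ) :
    Module (MonoidAlgebra F (schS n)) (J n → F) :=
  Module.compHom (J n → F) (schRep F n).asAlgebraHom.toRingHom

private theorem sch_perm_span {n : ℕ} (r : MonoidAlgebra F (schS n)) :
    (schRep F n).asAlgebraHom r ∈ Submodule.span F (Set.range (perm (F := F) n)) := by
  rw [Representation.asAlgebraHom_def, MonoidAlgebra.lift_apply, Finsupp.sum]
  refine Submodule.sum_mem _ fun σ _ => Submodule.smul_mem _ _ (Submodule.subset_span ⟨σ, rfl⟩)

section

variable {n : ℕ}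

private theorem sch_smul_perm (σ : schS n) (v : J n → F) :
    letI := schM F n
    (MonoidAlgebra.single σ (1 : F)) • v = perm n σ v := by
  show (schRep F n).asAlgebraHom (MonoidAlgebra.single σ (1 : F)) v = _
  rw [Representation.asAlgebraHom_single_one]
  rfl

private theorem sch_smul_alg (c : F) (v : J n → F) :
    letI := schM F n
    (algebraMap F (MonoidAlgebra F (schS n)) c) • v = c • v := by
  show (schRep F n).asAlgebraHom (algebraMap F (MonoidAlgebra F (schS n)) c) v = _
  rw [AlgHom.commutes]
  rfl

private theorem sch_tower :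
    letI := schM F n
    IsScalarTower F (MonoidAlgebra F (schS n)) (J n → F) := by
  let := schM F n
  refine ⟨fun c r v => ?_⟩
  show (schRep F n).asAlgebraHom (c • r) v = c • (schRep F n).asAlgebraHom r v
  rw [map_smul]
  rfl

/-- every endomorphism over the group algebra is a combination of the matrices `krn n h` -/
private theorem sch_end [CharZero F] :
    letI := schM F n
    ∀ e : Module.End (MonoidAlgebra F (schS n)) (J n → F),
      ∃ X ∈ Submodule.span F (Set.range (krn (F := F) n)), ∀ v, e v = X.mulVec v := by
  let := schM F n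
  intro e
  let e' : (J n → F) →ₗ[F] (J n → F) :=
    { toFun := e
      map_add' := e.map_add
      map_smul' := fun c v => by
        have h1 := e.map_smul (algebraMap F (MonoidAlgebra F (schS n)) c) v
        rw [sch_smul_alg, sch_smul_alg] at h1
        exact h1 }
  have h1 : ∀ v, e v = (LinearMap.toMatrix' e').mulVec v := by
    intro v
    rw [← Matrix.toLin'_apply, Matrix.toLin'_toMatrix']
    rfl
  refine ⟨LinearMap.toMatrix' e', sym_mem_span _ fun σ a b => ?_, h1⟩
  refine sch_sym _ σ (fun v => ?_) a b
  rw [← h1, ← h1, ← sch_smul_perm, ← sch_smul_perm]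
  exact (e.map_smul (MonoidAlgebra.single σ (1 : F)) v).symm

/-- `krn n h` is an endomorphism over the group algebra -/
private theorem sch_krn_end (h : Tri F) :
    letI := schM F n
    ∃ e : Module.End (MonoidAlgebra F (schS n)) (J n → F), ∀ v, e v = (krn n h).mulVec v := by
  let := schM F n
  refine ⟨{ toFun := fun v => (krn n h).mulVec v
            map_add' := fun v w => Matrix.mulVec_add _ v w
            map_smul' := fun r v => ?_ }, fun v => rfl⟩
  show (krn n h).mulVec ((schRep F n).asAlgebraHom r v) = (schRep F n).asAlgebraHom r ((krn n h).mulVec v)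
  have h1 : ∀ g ∈ Submodule.span F (Set.range (perm (F := F) n)),
      (krn n h).mulVec (g v) = g ((krn n h).mulVec v) := by
    intro g hg
    induction hg using Submodule.span_induction with
    | mem x hx =>
      obtain ⟨σ, rfl⟩ := hx
      exact (sch_comm _ σ (sch_krn_inv h σ) v).symm
    | zero => simp
    | add x y _ _ hx hy => rw [LinearMap.add_apply, Matrix.mulVec_add, hx, hy, LinearMap.add_apply]
    | smul c x _ hx => rw [LinearMap.smul_apply, Matrix.mulVec_smul, hx, LinearMap.smul_apply]
  exact h1 _ (sch_perm_span r)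

private theorem sch_sc (c : F) :
    letI := schM F n
    ∃ e : Module.End (MonoidAlgebra F (schS n)) (J n → F), ∀ v, e v = c • v := by
  let := schM F n
  refine ⟨{ toFun := fun v => c • v
            map_add' := fun v w => smul_add c v w
            map_smul' := fun r v => ?_ }, fun v => rfl⟩
  show c • (schRep F n).asAlgebraHom r v = (schRep F n).asAlgebraHom r (c • v)
  rw [map_smul]

private theorem sch_ne [CharZero F] : NeZero ((Nat.card (schS n) : ℕ) : F) :=
  ⟨Nat.cast_ne_zero.2 Nat.card_pos.ne'⟩

end

theorem comm_perm [CharZero F] {n : ℕ} (f : (J n → F) →ₗ[F] (J n → F))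
    (hf : ∀ h : Tri F, f ∘ₗ (krn n h).mulVecLin = (krn n h).mulVecLin ∘ₗ f) :
    f ∈ Submodule.span F (Set.range (perm (F := F) n)) := by
  classical
  let := schM F n
  have hne : NeZero ((Nat.card (schS n) : ℕ) : F) := sch_ne
  have hss : IsSemisimpleModule (MonoidAlgebra F (schS n)) (J n → F) := inferInstance
  have h1 : ∀ X ∈ Submodule.span F (Set.range (krn (F := F) n)), ∀ v,
      f (X.mulVec v) = X.mulVec (f v) := by
    intro X hX v
    induction hX using Submodule.span_induction with
    | mem x hx =>
      obtain ⟨h, rfl⟩ := hx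
      exact LinearMap.congr_fun (hf h) v
    | zero => rw [Matrix.zero_mulVec, Matrix.zero_mulVec, map_zero]
    | add x y _ _ hx hy => rw [Matrix.add_mulVec, map_add, hx, hy, Matrix.add_mulVec]
    | smul c x _ hx => rw [Matrix.smul_mulVec, map_smul, hx, Matrix.smul_mulVec]
  let f' : Module.End (Module.End (MonoidAlgebra F (schS n)) (J n → F)) (J n → F) :=
    { toFun := f
      map_add' := f.map_add
      map_smul' := fun e v => by
        obtain ⟨X, hX, he⟩ := sch_end e
        show f (e v) = e (f v)
        rw [he, he]
        exact h1 X hX v }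
  obtain ⟨r, hr⟩ := jacobson_density f' (Finset.univ.image fun b : J n => (Pi.single b 1 : J n → F))
  have h2 : f = (schRep F n).asAlgebraHom r := by
    refine LinearMap.pi_ext' fun b => LinearMap.ext_ring ?_
    exact hr _ (Finset.mem_image_of_mem _ (Finset.mem_univ b))
  rw [h2]
  exact sch_perm_span r

theorem compl_krn [CharZero F] {n : ℕ} (W : Submodule F (J n → F))
    (hW : ∀ h : Tri F, ∀ v ∈ W, (krn n h).mulVec v ∈ W) :
    ∃ W' : Submodule F (J n → F), (∀ h : Tri F, ∀ v ∈ W', (krn n h).mulVec v ∈ W') ∧
      IsCompl W W' := by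
  let := schM F n
  have hne : NeZero ((Nat.card (schS n) : ℕ) : F) := sch_ne
  have hss : IsSemisimpleModule (MonoidAlgebra F (schS n)) (J n → F) := inferInstance
  have htow : IsScalarTower F (MonoidAlgebra F (schS n)) (J n → F) := sch_tower
  have hfin : Module.Finite (MonoidAlgebra F (schS n)) (J n → F) :=
    Module.Finite.of_restrictScalars_finite F _ _
  have hE : IsSemisimpleRing (Module.End (MonoidAlgebra F (schS n)) (J n → F)) :=
    IsSemisimpleRing.moduleEnd _ _
  have hEM : IsSemisimpleModule (Module.End (MonoidAlgebra F (schS n)) (J n → F)) (J n → F) :=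
    inferInstance
  have h1 : ∀ X ∈ Submodule.span F (Set.range (krn (F := F) n)), ∀ v ∈ W, X.mulVec v ∈ W := by
    intro X hX v hv
    induction hX using Submodule.span_induction with
    | mem x hx =>
      obtain ⟨h, rfl⟩ := hx
      exact hW h v hv
    | zero => rw [Matrix.zero_mulVec]; exact W.zero_mem
    | add x y _ _ hx hy => rw [Matrix.add_mulVec]; exact W.add_mem hx hy
    | smul c x _ hx => rw [Matrix.smul_mulVec]; exact W.smul_mem c hx
  let WE : Submodule (Module.End (MonoidAlgebra F (schS n)) (J n → F)) (J n → F) :=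
    { carrier := W
      add_mem' := fun ha hb => W.add_mem ha hb
      zero_mem' := W.zero_mem
      smul_mem' := fun e v hv => by
        obtain ⟨X, hX, he⟩ := sch_end e
        show e v ∈ W
        rw [he]
        exact h1 X hX v hv }
  obtain ⟨WE', hc⟩ := exists_isCompl WE
  refine ⟨{ carrier := WE'
            add_mem' := fun ha hb => WE'.add_mem ha hb
            zero_mem' := WE'.zero_mem
            smul_mem' := fun c v hv => ?_ }, fun h v hv => ?_, ?_⟩
  · obtain ⟨e, he⟩ := sch_sc (n := n) c
    have h2 : e • v ∈ WE' := WE'.smul_mem e hv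
    rw [Module.End.smul_def, he] at h2
    exact h2
  · obtain ⟨e, he⟩ := sch_krn_end (n := n) h
    have h2 : e • v ∈ WE' := WE'.smul_mem e hv
    rw [Module.End.smul_def, he] at h2
    exact h2
  · rw [isCompl_iff]
    constructor
    · rw [Submodule.disjoint_def]
      intro x hx hx'
      exact Submodule.disjoint_def.1 hc.disjoint x hx hx'
    · rw [Submodule.codisjoint_iff_exists_add_eq]
      intro z
      obtain ⟨y, w, hy, hw, h2⟩ := (Submodule.codisjoint_iff_exists_add_eq).1 hc.codisjoint z
      exact ⟨y, w, hy, hw, h2⟩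

end Pool.Agent.MUM
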