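import Pool.Agent.MUM.Swap
import Pool.Agent.MUM.Pw
import Pool.Agent.MUM.Schur

/-!
# MUM: all permutations of the factors `V_i` are algebraic

Proof. `adj`: the exchange of the `i`-th components of the factors `k`, `k + 1` of `B^(⊗ n)` is algebraic: induction on `n`,
`pw B (n + 2) = B ⊗ (B ⊗ pw B n)`; `k = 0`: `α⁻¹`, `tl τ_i id`, `α` (`exists_tau`, `assoc_inv_tm`, `assoc_tm`); `k > 0`: `tl id (the operator for n + 1)`.
On `mon a` it is `mon (pact σ a)`, `σ = Function.update 1 i (swap k (k + 1))`. In coordinates: `perm n σ (Pi.single a 1) = Pi.single (pact σ⁻¹ a) 1`.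
`perm_mem`: the set of the `σ` with algebraic `perm n σ` is closed under products (`perm_mul`, `ah_comp`) and contains `1`; the
adjacent transpositions generate `Equiv.Perm (Fin n)` (`Equiv.Perm.mclosure_swap_castSucc_succ`), and `σ = ∏ i, Function.update 1 i (σ i)`
(`Pi.mulSingle`; three factors, `Fin 3`).
-/

set_option linter.unusedSectionVars false
set_option linter.unusedVariables false

namespace Pool.Agent.MUM

open CategoryTheory MonoidalCategory Limits TensorProduct Pool.Agent.KTT

universe v u w w'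

private theorem PermAlg_pact_zero {n : ℕ} (i : Fin 3) (a : J (n + 2)) :
    pact (Pi.mulSingle i (Equiv.swap (0 : Fin (n + 1)).castSucc (0 : Fin (n + 1)).succ)) a 0 =
      Function.update (a 0) i (a 1 i) := by
  funext l
  by_cases h : l = i
  · subst h
    simp [pact]
  · simp [pact, h]

private theorem PermAlg_pact_one {n : ℕ} (i : Fin 3) (a : J (n + 2)) :
    pact (Pi.mulSingle i (Equiv.swap (0 : Fin (n + 1)).castSucc (0 : Fin (n + 1)).succ)) a 1 =
      Function.update (a 1) i (a 0 i) := by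
  funext l
  by_cases h : l = i
  · subst h
    simp [pact]
  · simp [pact, h]

private theorem PermAlg_pact_rest {n : ℕ} (i : Fin 3) (a : J (n + 2)) (k : Fin n) :
    pact (Pi.mulSingle i (Equiv.swap (0 : Fin (n + 1)).castSucc (0 : Fin (n + 1)).succ)) a
      k.succ.succ = a k.succ.succ := by
  funext l
  by_cases h : l = i
  · subst h
    have h1 : k.succ.succ ≠ (0 : Fin (n + 2)) := Fin.succ_ne_zero _
    have h2 : k.succ.succ ≠ (1 : Fin (n + 2)) := by
      rw [← Fin.succ_zero_eq_one]
      exact fun h => Fin.succ_ne_zero _ (Fin.succ_injective _ h)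
    simp only [pact, Pi.mulSingle_eq_same, Fin.castSucc_zero, Fin.succ_zero_eq_one]
    rw [Equiv.swap_apply_of_ne_of_ne h1 h2]
  · simp [pact, h]

private theorem PermAlg_pact_succ_zero {n : ℕ} (i : Fin 3) (a : J (n + 2)) (k : Fin n) :
    pact (Pi.mulSingle i (Equiv.swap k.succ.castSucc k.succ.succ)) a 0 = a 0 := by
  funext l
  by_cases h : l = i
  · subst h
    have h1 : (0 : Fin (n + 2)) ≠ k.succ.castSucc := by
      rw [Fin.castSucc_succ]
      exact (Fin.succ_ne_zero _).symm
    have h2 : (0 : Fin (n + 2)) ≠ k.succ.succ := (Fin.succ_ne_zero _).symm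
    simp only [pact, Pi.mulSingle_eq_same]
    rw [Equiv.swap_apply_of_ne_of_ne h1 h2]
  · simp [pact, h]

private theorem PermAlg_pact_succ {n : ℕ} (i : Fin 3) (a : J (n + 2)) (k : Fin n)
    (m : Fin (n + 1)) :
    pact (Pi.mulSingle i (Equiv.swap k.succ.castSucc k.succ.succ)) a m.succ =
      pact (Pi.mulSingle i (Equiv.swap k.castSucc k.succ)) (fun x => a x.succ) m := by
  funext l
  by_cases h : l = i
  · subst h
    simp only [pact, Pi.mulSingle_eq_same]
    congr 1
    rw [Fin.castSucc_succ, (Fin.succ_injective (n + 1)).swap_apply]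
  · simp [pact, h]

variable {C : Type u} [Category.{v} C] [MonoidalCategory C] [BraidedCategory C]
  {F : Type w} [Field F] {H : C ⥤ ModuleCat.{w} F} [H.Monoidal]
  {G : Type w'} [Group G] {ρ : G →* Aut H} {B : C}

private theorem PermAlg_adj (M : MumfordType H ρ B) (i : Fin 3) : ∀ (n : ℕ) (k : Fin n),
    ∃ T ∈ ah H (pw B (n + 1)) (pw B (n + 1)), ∀ a : J (n + 1),
      T (mon H M.e (n + 1) a) =
        mon H M.e (n + 1) (pact (Pi.mulSingle i (Equiv.swap k.castSucc k.succ)) a) := by
  intro n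
  induction n with
  | zero => intro k; exact k.elim0
  | succ n ih =>
    intro k
    refine Fin.cases ?_ ?_ k
    · obtain ⟨τ, hτ, hτ'⟩ := exists_tau H M i
      refine ⟨(H.map (α_ B B (pw B n)).hom).hom ∘ₗ tl H τ LinearMap.id ∘ₗ
        (H.map (α_ B B (pw B n)).inv).hom, ?_, ?_⟩
      · exact ah_comp H (ah_comp H (ah_map H _) (ah_tl H hτ (ah_id H _))) (ah_map H _)
      · intro a
        have e1 : mon H M.e (n + 1 + 1) a = tm H (bv H M.e (a 0)) (tm H (bv H M.e (a 1))
            (mon H M.e n fun x => a x.succ.succ)) := rfl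
        have e2 : mon H M.e (n + 1 + 1) (pact (Pi.mulSingle i
            (Equiv.swap (0 : Fin (n + 1)).castSucc (0 : Fin (n + 1)).succ)) a) =
            tm H (bv H M.e (Function.update (a 0) i (a 1 i)))
              (tm H (bv H M.e (Function.update (a 1) i (a 0 i)))
            (mon H M.e n fun x => a x.succ.succ)) := by
          rw [← PermAlg_pact_zero, ← PermAlg_pact_one]
          have e3 : (fun x : Fin n => a x.succ.succ) = fun x => pact (Pi.mulSingle i
            (Equiv.swap (0 : Fin (n + 1)).castSucc (0 : Fin (n + 1)).succ)) a x.succ.succ := by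
            funext x
            rw [PermAlg_pact_rest]
          rw [e3]
          rfl
        have h := assoc_inv_tm H (bv H M.e (a 0)) (bv H M.e (a 1))
          (mon H M.e n fun x => a x.succ.succ)
        have h' := tl_tm H τ (LinearMap.id : H.obj (pw B n) →ₗ[F] H.obj (pw B n))
          (tm H (bv H M.e (a 0)) (bv H M.e (a 1))) (mon H M.e n fun x => a x.succ.succ)
        rw [hτ', LinearMap.id_apply, ← h] at h'
        rw [e2, e1]
        exact (congrArg (H.map (α_ B B (pw B n)).hom).hom h').trans (assoc_tm H _ _ _)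
    · intro k'
      obtain ⟨T, hT, hT'⟩ := ih k'
      refine ⟨tl H LinearMap.id T, ah_tl H (ah_id H _) hT, ?_⟩
      intro a
      have e1 : mon H M.e (n + 1 + 1) a = tm H (bv H M.e (a 0))
          (mon H M.e (n + 1) fun x => a x.succ) := rfl
      have e2 : mon H M.e (n + 1 + 1) (pact (Pi.mulSingle i
          (Equiv.swap k'.succ.castSucc k'.succ.succ)) a) =
          tm H (bv H M.e (a 0)) (mon H M.e (n + 1)
            (pact (Pi.mulSingle i (Equiv.swap k'.castSucc k'.succ)) fun x => a x.succ)) := by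
        have e3 : pact (Pi.mulSingle i (Equiv.swap k'.castSucc k'.succ))
            (fun x => a x.succ) = fun m => pact (Pi.mulSingle i
            (Equiv.swap k'.succ.castSucc k'.succ.succ)) a m.succ := by
          funext m
          rw [PermAlg_pact_succ]
        rw [e3, ← PermAlg_pact_succ_zero i a k']
        rfl
      have h := tl_tm H (LinearMap.id : H.obj B →ₗ[F] H.obj B) T (bv H M.e (a 0))
        (mon H M.e (n + 1) fun x => a x.succ)
      rw [hT', LinearMap.id_apply] at h
      rw [e2, e1]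
      exact h

private theorem PermAlg_single {n : ℕ} (σ : Fin 3 → Equiv.Perm (Fin n)) (a : J n) :
    perm (F := F) n σ (Pi.single a 1) = Pi.single (pact σ⁻¹ a) 1 := by
  have h1 : ∀ b : J n, pact σ⁻¹ (pact σ b) = b := by
    intro b
    rw [pact_mul, mul_inv_cancel]
    rfl
  have h2 : ∀ b : J n, pact σ (pact σ⁻¹ b) = b := by
    intro b
    rw [pact_mul, inv_mul_cancel]
    rfl
  funext b
  change (Pi.single a (1 : F) : J n → F) (pact σ b) = _
  by_cases h : b = pact σ⁻¹ a
  · subst h
    rw [h2, Pi.single_eq_same, Pi.single_eq_same]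
  · rw [Pi.single_eq_of_ne h, Pi.single_eq_of_ne]
    intro h3
    apply h
    rw [← h3, h1]

private theorem PermAlg_mon (M : MumfordType H ρ B) (n : ℕ) (σ : Fin 3 → Equiv.Perm (Fin n))
    (a : J n) : ((cd H M.e n).symm.toLinearMap ∘ₗ perm n σ ∘ₗ (cd H M.e n).toLinearMap)
      (mon H M.e n a) = mon H M.e n (pact σ⁻¹ a) := by
  change (cd H M.e n).symm (perm n σ (cd H M.e n (mon H M.e n a))) = _
  rw [cd_mon, PermAlg_single, cd_symm_single]

private theorem PermAlg_mul (M : MumfordType H ρ B) (n : ℕ) {σ τ : Fin 3 → Equiv.Perm (Fin n)}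
    (hσ : (cd H M.e n).symm.toLinearMap ∘ₗ perm n σ ∘ₗ (cd H M.e n).toLinearMap ∈
      ah H (pw B n) (pw B n))
    (hτ : (cd H M.e n).symm.toLinearMap ∘ₗ perm n τ ∘ₗ (cd H M.e n).toLinearMap ∈
      ah H (pw B n) (pw B n)) :
    (cd H M.e n).symm.toLinearMap ∘ₗ perm n (σ * τ) ∘ₗ (cd H M.e n).toLinearMap ∈
      ah H (pw B n) (pw B n) := by
  have h := ah_comp H hτ hσ
  have e : ((cd H M.e n).symm.toLinearMap ∘ₗ perm n σ ∘ₗ (cd H M.e n).toLinearMap) ∘ₗ
      ((cd H M.e n).symm.toLinearMap ∘ₗ perm n τ ∘ₗ (cd H M.e n).toLinearMap) =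
      (cd H M.e n).symm.toLinearMap ∘ₗ perm n (σ * τ) ∘ₗ (cd H M.e n).toLinearMap := by
    rw [perm_mul]
    apply LinearMap.ext
    intro x
    simp
  rwa [e] at h

private theorem PermAlg_one (M : MumfordType H ρ B) (n : ℕ) :
    (cd H M.e n).symm.toLinearMap ∘ₗ perm n (1 : Fin 3 → Equiv.Perm (Fin n)) ∘ₗ
      (cd H M.e n).toLinearMap ∈ ah H (pw B n) (pw B n) := by
  have e : (cd H M.e n).symm.toLinearMap ∘ₗ perm n (1 : Fin 3 → Equiv.Perm (Fin n)) ∘ₗ
      (cd H M.e n).toLinearMap = LinearMap.id := by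
    rw [perm_one]
    apply LinearMap.ext
    intro x
    simp
  rw [e]
  exact ah_id H _

private theorem PermAlg_factor (M : MumfordType H ρ B) (i : Fin 3) (n : ℕ)
    (π : Equiv.Perm (Fin (n + 1))) :
    (cd H M.e (n + 1)).symm.toLinearMap ∘ₗ perm (n + 1) (Pi.mulSingle i π) ∘ₗ
      (cd H M.e (n + 1)).toLinearMap ∈ ah H (pw B (n + 1)) (pw B (n + 1)) := by
  have hπ : π ∈ Submonoid.closure (Set.range fun k : Fin n => Equiv.swap k.castSucc k.succ) := by
    rw [Equiv.Perm.mclosure_swap_castSucc_succ]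
    trivial
  induction hπ using Submonoid.closure_induction with
  | mem x hx =>
    obtain ⟨k, rfl⟩ := hx
    obtain ⟨T, hT, hT'⟩ := PermAlg_adj M i n k
    have e : (cd H M.e (n + 1)).symm.toLinearMap ∘ₗ
        perm (n + 1) (Pi.mulSingle i (Equiv.swap k.castSucc k.succ)) ∘ₗ
        (cd H M.e (n + 1)).toLinearMap = T := by
      apply mon_ext H M.e
      intro a
      rw [PermAlg_mon, hT', ← Pi.mulSingle_inv, Equiv.swap_inv]
    change (cd H M.e (n + 1)).symm.toLinearMap ∘ₗ
        perm (n + 1) (Pi.mulSingle i (Equiv.swap k.castSucc k.succ)) ∘ₗ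
        (cd H M.e (n + 1)).toLinearMap ∈ _
    rw [e]
    exact hT
  | one =>
    rw [Pi.mulSingle_one]
    exact PermAlg_one M _
  | mul x y _ _ hx hy =>
    rw [Pi.mulSingle_mul]
    exact PermAlg_mul M _ hx hy

theorem perm_mem (M : MumfordType H ρ B) (n : ℕ) (σ : Fin 3 → Equiv.Perm (Fin n)) :
    (cd H M.e n).symm.toLinearMap ∘ₗ perm n σ ∘ₗ (cd H M.e n).toLinearMap ∈
      ah H (pw B n) (pw B n) := by
  cases n with
  | zero =>
    have : σ = 1 := Subsingleton.elim _ _
    rw [this]
    exact PermAlg_one M _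
  | succ n =>
    have e : σ = Pi.mulSingle 0 (σ 0) * Pi.mulSingle 1 (σ 1) * Pi.mulSingle 2 (σ 2) := by
      funext i
      fin_cases i <;> simp
    rw [e]
    exact PermAlg_mul M _ (PermAlg_mul M _ (PermAlg_factor M 0 n _) (PermAlg_factor M 1 n _))
      (PermAlg_factor M 2 n _)

end Pool.Agent.MUM
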