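import Pool.Agent.MUM.Defs

/-!
# MUM: symmetric matrices are combinations of powers (polarization)

A linear functional which vanishes on all `krn n h` is a polynomial in the coordinates of `h` which vanishes
identically, so its coefficients are zero (`MvPolynomial.funext`). The coefficient of a monomial is the sum of the
values at the matrix units `a, b` with this monomial, and the matrix `X` is constant on these pairs, as two pairs with
the same monomial differ by three permutations.
-/

set_option linter.unusedSectionVars false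
set_option linter.unusedVariables false

namespace Pool.Agent.MUM

universe w

variable {F : Type w} [Field F]

/-- the monomial of a matrix unit -/
private noncomputable def Pol_mon {n : ℕ} (a b : J n) : Fin 3 × Fin 2 × Fin 2 →₀ ℕ :=
  ∑ k, ∑ i, Finsupp.single (i, a k i, b k i) 1

private theorem Pol_mon_apply {n : ℕ} (a b : J n) (i : Fin 3) (x : Fin 2 × Fin 2) :
    Pol_mon a b (i, x) = (Finset.univ.filter fun k => (a k i, b k i) = x).card := by
  unfold Pol_mon
  rw [Finsupp.finsetSum_apply, Finset.card_filter]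
  refine Finset.sum_congr rfl fun k _ => ?_
  rw [Finsupp.finsetSum_apply, Finset.sum_eq_single i]
  · rw [Finsupp.single_apply]
    by_cases h : (a k i, b k i) = x
    · rw [if_pos h, if_pos (by rw [h])]
    · rw [if_neg h, if_neg (fun h' => h (Prod.mk.inj h').2)]
  · intro j _ hj
    rw [Finsupp.single_apply, if_neg (fun h' => hj (Prod.mk.inj h').1)]
  · exact fun h => absurd (Finset.mem_univ i) h

private theorem Pol_perm {n : ℕ} {a b a' b' : J n} (h : Pol_mon a b = Pol_mon a' b') :
    ∃ σ : Fin 3 → Equiv.Perm (Fin n), pact σ a = a' ∧ pact σ b = b' := by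
  have h1 : ∀ i : Fin 3, ∃ s : Equiv.Perm (Fin n), ∀ k, (a (s k) i, b (s k) i) = (a' k i, b' k i) := by
    intro i
    have h2 : ∀ c : Fin 2 × Fin 2, Nonempty ({k // (a' k i, b' k i) = c} ≃ {k // (a k i, b k i) = c}) := by
      intro c
      refine ⟨Fintype.equivOfCardEq ?_⟩
      rw [Fintype.card_subtype, Fintype.card_subtype, ← Pol_mon_apply, ← Pol_mon_apply, h]
    exact ⟨Equiv.ofFiberEquiv (f := fun k => (a' k i, b' k i)) (g := fun k => (a k i, b k i))
      fun c => (h2 c).some, fun k => Equiv.ofFiberEquiv_map (f := fun k => (a' k i, b' k i))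
        (g := fun k => (a k i, b k i)) (fun c => (h2 c).some) k⟩
  choose σ hσ using h1
  refine ⟨σ, ?_, ?_⟩
  · funext k i
    exact (Prod.mk.inj (hσ i k)).1
  · funext k i
    exact (Prod.mk.inj (hσ i k)).2

private theorem Pol_eval {n : ℕ} (a b : J n) (c : F) (v : Fin 3 × Fin 2 × Fin 2 → F) :
    MvPolynomial.eval v (MvPolynomial.monomial (Pol_mon a b) c) = c * ∏ k, ∏ i, v (i, a k i, b k i) := by
  have h1 : MvPolynomial.monomial (Pol_mon a b) (1 : F) = ∏ k, ∏ i, MvPolynomial.X (i, a k i, b k i) := by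
    unfold Pol_mon
    rw [MvPolynomial.monomial_sum_one]
    refine Finset.prod_congr rfl fun k _ => ?_
    rw [MvPolynomial.monomial_sum_one]
    rfl
  have h2 : MvPolynomial.monomial (Pol_mon a b) c =
      MvPolynomial.C c * MvPolynomial.monomial (Pol_mon a b) 1 := by
    rw [MvPolynomial.C_mul_monomial, mul_one]
  rw [h2, map_mul, MvPolynomial.eval_C, h1, map_prod]
  congr 1
  refine Finset.prod_congr rfl fun k _ => ?_
  rw [map_prod]
  exact Finset.prod_congr rfl fun i _ => MvPolynomial.eval_X _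

private theorem Pol_coeff [CharZero F] {n : ℕ} (c : J n → J n → F)
    (hc : ∀ h : Tri F, ∑ a, ∑ b, krn n h a b * c a b = 0) (μ : Fin 3 × Fin 2 × Fin 2 →₀ ℕ) :
    ∑ a : J n, ∑ b : J n, (if Pol_mon a b = μ then c a b else 0) = 0 := by
  classical
  have hp : (∑ a : J n, ∑ b : J n, MvPolynomial.monomial (Pol_mon a b) (c a b)) = 0 := by
    refine MvPolynomial.funext fun v => ?_
    rw [map_zero, map_sum, ← hc fun i => Matrix.of fun s t => v (i, s, t)]
    refine Finset.sum_congr rfl fun a _ => ?_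
    rw [map_sum]
    refine Finset.sum_congr rfl fun b _ => ?_
    rw [Pol_eval, mul_comm]
    rfl
  have h1 := congrArg (MvPolynomial.coeff μ) hp
  rw [MvPolynomial.coeff_zero, MvPolynomial.coeff_sum] at h1
  refine Eq.trans (Finset.sum_congr rfl fun a _ => ?_) h1
  rw [MvPolynomial.coeff_sum]
  exact Finset.sum_congr rfl fun b _ => (MvPolynomial.coeff_monomial μ (Pol_mon a b) (c a b)).symm

private theorem Pol_sum {n : ℕ} (X : Matrix (J n) (J n) F)
    (hX : ∀ σ : Fin 3 → Equiv.Perm (Fin n), ∀ a b, X (pact σ a) (pact σ b) = X a b) (c : J n → J n → F)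
    (hc : ∀ μ : Fin 3 × Fin 2 × Fin 2 →₀ ℕ, ∑ a : J n, ∑ b : J n, (if Pol_mon a b = μ then c a b else 0) = 0) :
    ∑ a, ∑ b, X a b * c a b = 0 := by
  classical
  have h3 : ∑ a : J n, ∑ b : J n, X a b * c a b = ∑ x : J n × J n, X x.1 x.2 * c x.1 x.2 :=
    (Fintype.sum_prod_type fun x : J n × J n => X x.1 x.2 * c x.1 x.2).symm
  have hmap : ∀ x ∈ (Finset.univ : Finset (J n × J n)), Pol_mon x.1 x.2 ∈
      (Finset.univ : Finset (J n × J n)).image (fun x => Pol_mon x.1 x.2) := by
    intro x hx
    rw [Finset.mem_image]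
    exact ⟨x, hx, rfl⟩
  rw [h3, ← Finset.sum_fiberwise_of_maps_to hmap fun x : J n × J n => X x.1 x.2 * c x.1 x.2]
  refine Finset.sum_eq_zero fun μ hμ => ?_
  obtain ⟨y, _, hy⟩ := Finset.mem_image.1 hμ
  have h4 : ∀ x ∈ (Finset.univ : Finset (J n × J n)).filter (fun x => Pol_mon x.1 x.2 = μ),
      X x.1 x.2 * c x.1 x.2 = X y.1 y.2 * c x.1 x.2 := by
    intro x hx
    obtain ⟨σ, h5, h6⟩ := Pol_perm (hy.trans (Finset.mem_filter.1 hx).2.symm)
    rw [← h5, ← h6, hX]
  have h5 : ∑ x ∈ (Finset.univ : Finset (J n × J n)).filter (fun x => Pol_mon x.1 x.2 = μ), c x.1 x.2 = 0 := by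
    rw [Finset.sum_filter]
    exact (Fintype.sum_prod_type fun x : J n × J n => if Pol_mon x.1 x.2 = μ then c x.1 x.2 else 0).trans (hc μ)
  rw [Finset.sum_congr rfl h4, ← Finset.mul_sum, h5, mul_zero]

theorem sym_mem_span [CharZero F] {n : ℕ} (X : Matrix (J n) (J n) F)
    (hX : ∀ σ : Fin 3 → Equiv.Perm (Fin n), ∀ a b, X (pact σ a) (pact σ b) = X a b) :
    X ∈ Submodule.span F (Set.range (krn (F := F) n)) := by
  classical
  by_contra hmem
  obtain ⟨f, hf, hf0⟩ := Submodule.exists_dual_map_eq_bot_of_notMem hmem inferInstance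
  have hfs : ∀ M : Matrix (J n) (J n) F, f M = ∑ a, ∑ b, M a b * f (Matrix.single a b 1) := by
    intro M
    conv_lhs => rw [Matrix.matrix_eq_sum_single M]
    rw [map_sum]
    refine Finset.sum_congr rfl fun a _ => ?_
    rw [map_sum]
    refine Finset.sum_congr rfl fun b _ => ?_
    rw [← smul_eq_mul, ← map_smul, Matrix.smul_single, smul_eq_mul, mul_one]
  have hfk : ∀ h : Tri F, ∑ a, ∑ b, krn n h a b * f (Matrix.single a b 1) = 0 := by
    intro h
    have h1 : f (krn n h) ∈ (Submodule.span F (Set.range (krn (F := F) n))).map f :=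
      Submodule.mem_map_of_mem (Submodule.subset_span ⟨h, rfl⟩)
    rw [hf0] at h1
    rw [← hfs]
    exact (Submodule.mem_bot F).1 h1
  exact hf ((hfs X).trans (Pol_sum X hX _ (Pol_coeff _ hfk)))

end Pool.Agent.MUM
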