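import Pool.Agent.MUM.Ah
import Pool.Agent.MUM.Krn
import Pool.Agent.MUM.SchurD

/-!
# MUM: semisimplicity, coordinates and tensor products

`cd_tensor`: `μIso`, the tensor product of the standard bases, `Fin.appendEquiv`, `krn_add`, `nat_tm`.
`cd_base`: `e` and `J 1 ≃ I`. `cd_ss`: transport a stable subspace by `E`; it is stable under `krn N h` for `h` in the dense set,
`compl_dense`, transport back; for stability under all `g` use the hypothesis `act`.
-/

set_option linter.unusedSectionVars false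
set_option linter.unusedVariables false

namespace Pool.Agent.MUM

open CategoryTheory MonoidalCategory Limits TensorProduct Pool.Agent.KTT

universe v u w w'

variable {C : Type u} [Category.{v} C] [MonoidalCategory C]
  {F : Type w} [Field F] {H : C ⥤ ModuleCat.{w} F} [H.Monoidal]
  {G : Type w'} [Group G] {ρ : G →* Aut H} {B : C}

/-- `H(W)` is the `N`-th tensor power of `V₁ ⊗ V₂ ⊗ V₃` up to scalars. -/
def Cd (e : H.obj B ≃ₗ[F] (I → F)) (ρ : G →* Aut H) (W : C) (N : ℕ) : Prop :=
  ∃ E : H.obj W ≃ₗ[F] (J N → F), ∀ (g : G) (c : F) (h : Tri F), Sl h → Acts H ρ e g c h →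
    ∃ c' : F, ∀ v, E (((ρ g).hom.app W).hom v) = c' • (krn N h).mulVec (E v)

/-- the coordinate change `J 1 ≃ I` -/
private def ssaEq : J 1 ≃ I := Equiv.funUnique (Fin 1) I

private theorem ssa_kr (h : Tri F) (a b : J 1) : krn 1 h a b = kr h (ssaEq a) (ssaEq b) := by
  simp [krn, kr, ssaEq]

theorem cd_base (e : H.obj B ≃ₗ[F] (I → F)) : Cd e ρ B 1 := by
  refine ⟨e.trans (LinearEquiv.funCongrLeft F F ssaEq), ?_⟩
  intro g c h hs ha
  refine ⟨c, ?_⟩
  intro v
  funext a
  have h1 : ∀ (v : H.obj B) (a : J 1),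
      (e.trans (LinearEquiv.funCongrLeft F F ssaEq)) v a = e v (ssaEq a) := by
    intro v a
    rfl
  rw [h1, ha v, Pi.smul_apply, Pi.smul_apply]
  congr 1
  rw [Matrix.mulVec, Matrix.mulVec, dotProduct, dotProduct]
  rw [← Equiv.sum_comp ssaEq]
  refine Finset.sum_congr rfl fun b _ => ?_
  rw [h1, ssa_kr]

/-- the coordinates on the tensor product -/
private noncomputable def ssaE {W W' : C} {N N' : ℕ} (E : H.obj W ≃ₗ[F] (J N → F))
    (E' : H.obj W' ≃ₗ[F] (J N' → F)) : H.obj (W ⊗ W') ≃ₗ[F] (J (N + N') → F) :=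
  (Functor.Monoidal.μIso H W W').symm.toLinearEquiv.trans
    ((TensorProduct.congr E E').trans
      ((((Pi.basisFun F (J N)).tensorProduct (Pi.basisFun F (J N'))).equivFun).trans
        (LinearEquiv.funCongrLeft F F (Fin.appendEquiv N N').symm)))

private theorem ssaE_tm {W W' : C} {N N' : ℕ} (E : H.obj W ≃ₗ[F] (J N → F))
    (E' : H.obj W' ≃ₗ[F] (J N' → F)) (x : H.obj W) (y : H.obj W') (a : J N) (a' : J N') :
    ssaE E E' (tm H x y) (Fin.append a a') = E x a * E' y a' := by
  have h1 : (Functor.Monoidal.μIso H W W').symm.toLinearEquiv (tm H x y) = x ⊗ₜ[F] y := by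
    have h2 : (Functor.Monoidal.μIso H W W').toLinearEquiv (x ⊗ₜ[F] y) = tm H x y := rfl
    rw [← h2]
    exact (Functor.Monoidal.μIso H W W').toLinearEquiv.symm_apply_apply _
  have h3 : ((Fin.appendEquiv N N').symm (Fin.append a a') : J N × J N') = (a, a') := by
    rw [Equiv.symm_apply_eq]
    rfl
  unfold ssaE
  rw [LinearEquiv.trans_apply, LinearEquiv.trans_apply, LinearEquiv.trans_apply, h1,
    TensorProduct.congr_tmul, LinearEquiv.funCongrLeft_apply, LinearMap.funLeft_apply, h3,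
    Module.Basis.equivFun_apply, Module.Basis.tensorProduct_repr_tmul_apply]
  simp [mul_comm]

theorem cd_tensor (e : H.obj B ≃ₗ[F] (I → F)) (ht : ∀ g, NatTrans.IsMonoidal (ρ g).hom)
    {W W' : C} {N N' : ℕ} (h : Cd e ρ W N) (h' : Cd e ρ W' N') : Cd e ρ (W ⊗ W') (N + N') := by
  obtain ⟨E, hE⟩ := h
  obtain ⟨E', hE'⟩ := h'
  refine ⟨ssaE E E', ?_⟩
  intro g c h hs ha
  obtain ⟨c1, h1⟩ := hE g c h hs ha
  obtain ⟨c2, h2⟩ := hE' g c h hs ha
  refine ⟨c1 * c2, ?_⟩
  have key : (ssaE E E').toLinearMap ∘ₗ ((ρ g).hom.app (W ⊗ W')).hom =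
      (c1 * c2) • ((krn (N + N') h).mulVecLin ∘ₗ (ssaE E E').toLinearMap) := by
    refine tm_ext H ?_
    intro x y
    have hmon := ht g
    rw [LinearMap.comp_apply, nat_tm H (ρ g).hom x y, LinearMap.smul_apply, LinearMap.comp_apply]
    funext d
    have hd : d = Fin.append (fun i => d (Fin.castAdd N' i)) (fun i => d (Fin.natAdd N i)) :=
      (Fin.append_castAdd_natAdd).symm
    set a : J N := fun i => d (Fin.castAdd N' i)
    set a' : J N' := fun i => d (Fin.natAdd N i)
    rw [hd]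
    change ssaE E E' (tm H _ _) (Fin.append a a') =
      (c1 * c2) * ((krn (N + N') h).mulVec (ssaE E E' (tm H x y))) (Fin.append a a')
    rw [ssaE_tm, h1, h2, Pi.smul_apply, Pi.smul_apply, smul_eq_mul, smul_eq_mul]
    have h3 : ((krn (N + N') h).mulVec (ssaE E E' (tm H x y))) (Fin.append a a') =
        ((krn N h).mulVec (E x)) a * ((krn N' h).mulVec (E' y)) a' := by
      rw [Matrix.mulVec, Matrix.mulVec, Matrix.mulVec, dotProduct, dotProduct, dotProduct,
        ← Equiv.sum_comp (Fin.appendEquiv N N'), Fintype.sum_prod_type, Finset.sum_mul_sum]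
      refine Finset.sum_congr rfl fun b _ => Finset.sum_congr rfl fun b' _ => ?_
      change krn (N + N') h (Fin.append a a') (Fin.append b b') *
        ssaE E E' (tm H x y) (Fin.append b b') = _
      rw [krn_add, ssaE_tm]
      ring
    rw [h3]
    ring
  intro v
  exact LinearMap.congr_fun key v

theorem cd_ss [CharZero F] [IsAlgClosed F] (e : H.obj B ≃ₗ[F] (I → F))
    (act : ∀ g, ∃ (c : F) (h : Tri F), Sl h ∧ Acts H ρ e g c h)
    (dense : Dense3 {h : Tri F | Sl h ∧ ∃ g c, Acts H ρ e g c h})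
    {W : C} {N : ℕ} (h : Cd e ρ W N) : Semisimple H ρ W := by
  obtain ⟨E, hE⟩ := h
  intro S hS
  have hstab : ∀ h ∈ {h : Tri F | Sl h ∧ ∃ g c, Acts H ρ e g c h},
      ∀ v ∈ S.map E.toLinearMap, (krn N h).mulVec v ∈ S.map E.toLinearMap := by
    rintro h ⟨hs, g, c, ha⟩ v ⟨x, hx, rfl⟩
    obtain ⟨c', hc⟩ := hE g c h hs ha
    by_cases h0 : c' = 0
    · have hz : ∀ z : H.obj W, z = 0 := by
        intro z
        have h1 : ((ρ g).hom.app W).hom (((ρ g).inv.app W).hom z) = z := by
          have h2 : (ρ g).inv.app W ≫ (ρ g).hom.app W = 𝟙 (H.obj W) := by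
            rw [← NatTrans.comp_app, Iso.inv_hom_id, NatTrans.id_app]
          have h3 := congrArg (fun f => f.hom z) h2
          exact h3
        have h4 := hc (((ρ g).inv.app W).hom z)
        rw [h0, zero_smul, h1] at h4
        exact E.map_eq_zero_iff.1 h4
      rw [hz x]
      have h5 : E.toLinearMap (0 : H.obj W) = 0 := map_zero _
      rw [h5, Matrix.mulVec_zero]
      exact Submodule.zero_mem _
    · refine ⟨c'⁻¹ • ((ρ g).hom.app W).hom x, S.smul_mem _ (hS g x hx), ?_⟩
      change E (c'⁻¹ • ((ρ g).hom.app W).hom x) = (krn N h).mulVec (E x)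
      rw [map_smul, hc x, smul_smul, inv_mul_cancel₀ h0, one_smul]
  obtain ⟨T, hT, hST⟩ := compl_dense dense (S.map E.toLinearMap) hstab
  refine ⟨T.comap E.toLinearMap, ?_, ?_⟩
  · intro g v hv
    obtain ⟨c, h, hs, ha⟩ := act g
    obtain ⟨c', hc⟩ := hE g c h hs ha
    change E (((ρ g).hom.app W).hom v) ∈ T
    rw [hc v]
    exact T.smul_mem _ (hT h ⟨hs, g, c, ha⟩ _ hv)
  · have h1 : IsCompl ((Submodule.orderIsoMapComap E) S)
        ((Submodule.orderIsoMapComap E) (T.comap E.toLinearMap)) := by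
      have h2 : (Submodule.orderIsoMapComap E) (T.comap E.toLinearMap) = T :=
        Submodule.map_comap_eq_of_surjective E.surjective T
      rw [h2]
      exact hST
    exact ((Submodule.orderIsoMapComap E).isCompl_iff).2 h1

end Pool.Agent.MUM
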