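import Pool.Agent.MUM.Ah

/-!
# MUM: the exchange of the `i`-th components on `B ⊗ B` is algebraic

`br_tensor`: hexagon. `lift_left`, `lift_right`: for `L`, `R` with `Br R L` let `m` be the isomorphism
`(L ⊗ R) ⊗ (L ⊗ R) ≅ (L ⊗ L) ⊗ (R ⊗ R)` made of associators and the braiding of `R` and `L`; `H(m)` maps
`(l r)(l' r')` to `s (l l')(r r')`; for `E ∈ ah (L ⊗ L)` the map `H(m⁻¹) ∘ (E ⊗ id) ∘ H(m)` is algebraic and acts
as `E` on the `L`-parts; the same for `R`. The exchange on `U ⊗ U` is `s H(β_{U,U})`. Lift it from `U` to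
`U ⊗ U` (left and right part), `(U ⊗ U) ⊗ U`, `((U ⊗ U) ⊗ U) ⊗ Q`: three exchanges `E_i`;
`τ_i = (down ⊗ down) E_i (up ⊗ up)`.
-/

set_option linter.unusedSectionVars false
set_option linter.unusedVariables false

namespace Pool.Agent.MUM

open CategoryTheory MonoidalCategory Limits TensorProduct Pool.Agent.KTT

universe v u w w'

variable {C : Type u} [Category.{v} C] [MonoidalCategory C] [BraidedCategory C]
  {F : Type w} [Field F] (H : C ⥤ ModuleCat.{w} F) [H.Monoidal]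

omit [MonoidalCategory C] [BraidedCategory C] [H.Monoidal] in
private theorem swap_comp {X Y Z : C} (f : X ⟶ Y) (g : Y ⟶ Z) (x : H.obj X) :
    (H.map (f ≫ g)).hom x = (H.map g).hom ((H.map f).hom x) := by
  rw [H.map_comp]
  rfl

omit [BraidedCategory C] in
private theorem swap_wr {X Y : C} (f : X ⟶ Y) (Z : C) (x : H.obj X) (z : H.obj Z) :
    (H.map (f ▷ Z)).hom (tm H x z) = tm H ((H.map f).hom x) z := by
  rw [← tensorHom_id, map_tm, H.map_id]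
  rfl

omit [BraidedCategory C] in
private theorem swap_wl {X Y : C} (Z : C) (f : X ⟶ Y) (z : H.obj Z) (x : H.obj X) :
    (H.map (Z ◁ f)).hom (tm H z x) = tm H z ((H.map f).hom x) := by
  rw [← id_tensorHom, map_tm, H.map_id]
  rfl

omit [MonoidalCategory C] [BraidedCategory C] [H.Monoidal] in
private theorem swap_inv_hom {X Y : C} (f : X ≅ Y) (x : H.obj X) :
    (H.map f.inv).hom ((H.map f.hom).hom x) = x := by
  rw [← swap_comp, Iso.hom_inv_id, H.map_id]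
  rfl

/-- `y ↦ x ⊗ y` -/
private noncomputable def swap_tmr {X : C} (Y : C) (x : H.obj X) : H.obj Y →ₗ[F] H.obj (X ⊗ Y) where
  toFun y := tm H x y
  map_add' y y' := tm_add_right H x y y'
  map_smul' c y := tm_smul_right H c x y

/-- `x ↦ x ⊗ y` -/
private noncomputable def swap_tml (X : C) {Y : C} (y : H.obj Y) : H.obj X →ₗ[F] H.obj (X ⊗ Y) where
  toFun x := tm H x y
  map_add' x x' := tm_add_left H x x' y
  map_smul' c x := tm_smul_left H c x y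

theorem br_tensor {X Y Z : C} (h : Br H X Y) (h' : Br H X Z) : Br H X (Y ⊗ Z) := by
  obtain ⟨s, hs, h1⟩ := h
  obtain ⟨t, ht, h2⟩ := h'
  refine ⟨s * t, ?_, ?_⟩
  · rcases hs with rfl | rfl <;> rcases ht with rfl | rfl <;> simp
  · intro x w
    have key : (H.map (β_ X (Y ⊗ Z)).hom).hom ∘ₗ swap_tmr H (Y ⊗ Z) x =
        (s * t) • swap_tml H (Y ⊗ Z) x := by
      refine tm_ext H fun y z => ?_
      change (H.map (β_ X (Y ⊗ Z)).hom).hom (tm H x (tm H y z)) =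
        (s * t) • tm H (tm H y z) x
      have h3 := BraidedCategory.hexagon_forward X Y Z
      have h4 := congrArg (fun f => (H.map f).hom (tm H (tm H x y) z)) h3
      simp only [swap_comp] at h4
      rw [assoc_tm, swap_wr, h1, tm_smul_left, map_smul, map_smul, assoc_tm, swap_wl, h2,
        tm_smul_right] at h4
      have h5 := congrArg (H.map (α_ Y Z X).inv).hom h4
      rw [swap_inv_hom, map_smul, map_smul, assoc_inv_tm, smul_smul] at h5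
      exact h5
    have h6 := LinearMap.congr_fun key w
    exact h6

/-- the exchange of the two middle factors -/
private noncomputable def swap_mid (L R : C) : (L ⊗ R) ⊗ (L ⊗ R) ≅ (L ⊗ L) ⊗ (R ⊗ R) :=
  α_ L R (L ⊗ R) ≪≫ whiskerLeftIso L ((α_ R L R).symm ≪≫ whiskerRightIso (β_ R L) R ≪≫ α_ L R R) ≪≫
    (α_ L L (R ⊗ R)).symm

private theorem swap_mid_tm {L R : C} {s : F}
    (hs : ∀ (x : H.obj R) (y : H.obj L), (H.map (β_ R L).hom).hom (tm H x y) = s • tm H y x)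
    (l l' : H.obj L) (r r' : H.obj R) :
    (H.map (swap_mid L R).hom).hom (tm H (tm H l r) (tm H l' r')) =
      s • tm H (tm H l l') (tm H r r') := by
  unfold swap_mid
  simp only [Iso.trans_hom, Iso.symm_hom, whiskerLeftIso_hom, whiskerRightIso_hom, swap_comp]
  rw [assoc_tm, swap_wl, swap_comp, swap_comp, assoc_inv_tm, swap_wr, hs, tm_smul_left, map_smul,
    assoc_tm, tm_smul_right, map_smul, assoc_inv_tm]

private theorem swap_sq {s : F} (hs : s = 1 ∨ s = -1) : s * s = 1 := by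
  rcases hs with rfl | rfl <;> norm_num

private theorem swap_lift {L R : C} (hb : Br H R L)
    {E : H.obj ((L ⊗ L) ⊗ (R ⊗ R)) →ₗ[F] H.obj ((L ⊗ L) ⊗ (R ⊗ R))}
    (hE : E ∈ ah H ((L ⊗ L) ⊗ (R ⊗ R)) ((L ⊗ L) ⊗ (R ⊗ R))) :
    ∃ E' ∈ ah H ((L ⊗ R) ⊗ (L ⊗ R)) ((L ⊗ R) ⊗ (L ⊗ R)),
      ∀ (l l' m m' : H.obj L) (r r' n n' : H.obj R),
        E (tm H (tm H l l') (tm H r r')) = tm H (tm H m m') (tm H n n') →
        E' (tm H (tm H l r) (tm H l' r')) = tm H (tm H m n) (tm H m' n') := by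
  obtain ⟨s, hs, h1⟩ := hb
  refine ⟨(H.map (swap_mid L R).inv).hom ∘ₗ E ∘ₗ (H.map (swap_mid L R).hom).hom,
    ah_comp H (ah_comp H (ah_map H _) hE) (ah_map H _), ?_⟩
  intro l l' m m' r r' n n' h
  rw [LinearMap.comp_apply, LinearMap.comp_apply, swap_mid_tm H h1, map_smul, h,
    ← swap_mid_tm H h1, swap_inv_hom]

/-- lift of an algebraic operator from `L ⊗ L` to `(L ⊗ R) ⊗ (L ⊗ R)` -/
theorem lift_left {L R : C} (hb : Br H R L) {E : H.obj (L ⊗ L) →ₗ[F] H.obj (L ⊗ L)}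
    (hE : E ∈ ah H (L ⊗ L) (L ⊗ L)) :
    ∃ E' ∈ ah H ((L ⊗ R) ⊗ (L ⊗ R)) ((L ⊗ R) ⊗ (L ⊗ R)),
      ∀ (l l' m m' : H.obj L) (r r' : H.obj R), E (tm H l l') = tm H m m' →
        E' (tm H (tm H l r) (tm H l' r')) = tm H (tm H m r) (tm H m' r') := by
  obtain ⟨E', hE', h⟩ := swap_lift H hb (ah_tl H hE (ah_id H (R ⊗ R)))
  refine ⟨E', hE', fun l l' m m' r r' he => h l l' m m' r r' r r' ?_⟩
  rw [tl_tm, he, LinearMap.id_apply]

/-- lift of an algebraic operator from `R ⊗ R` to `(L ⊗ R) ⊗ (L ⊗ R)` -/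
theorem lift_right {L R : C} (hb : Br H R L) {E : H.obj (R ⊗ R) →ₗ[F] H.obj (R ⊗ R)}
    (hE : E ∈ ah H (R ⊗ R) (R ⊗ R)) :
    ∃ E' ∈ ah H ((L ⊗ R) ⊗ (L ⊗ R)) ((L ⊗ R) ⊗ (L ⊗ R)),
      ∀ (l l' : H.obj L) (r r' m m' : H.obj R), E (tm H r r') = tm H m m' →
        E' (tm H (tm H l r) (tm H l' r')) = tm H (tm H l m) (tm H l' m') := by
  obtain ⟨E', hE', h⟩ := swap_lift H hb (ah_tl H (ah_id H (L ⊗ L)) hE)
  refine ⟨E', hE', fun l l' r r' m m' he => h l l' l l' r r' m m' ?_⟩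
  rw [tl_tm, he, LinearMap.id_apply]

private theorem swap_U {U : C} (hb : Br H U U) :
    ∃ E ∈ ah H (U ⊗ U) (U ⊗ U), ∀ x y : H.obj U, E (tm H x y) = tm H y x := by
  obtain ⟨s, hs, h1⟩ := hb
  refine ⟨s • (H.map (β_ U U).hom).hom, Submodule.smul_mem _ _ (ah_map H _), fun x y => ?_⟩
  rw [LinearMap.smul_apply, h1, smul_smul, swap_sq hs, one_smul]

variable {G : Type w'} [Group G] {ρ : G →* Aut H} {B : C}

private theorem swap_fin (M : MumfordType H ρ B) (i : Fin 3)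
    {E : H.obj ((((M.U ⊗ M.U) ⊗ M.U) ⊗ M.Q) ⊗ (((M.U ⊗ M.U) ⊗ M.U) ⊗ M.Q)) →ₗ[F]
      H.obj ((((M.U ⊗ M.U) ⊗ M.U) ⊗ M.Q) ⊗ (((M.U ⊗ M.U) ⊗ M.U) ⊗ M.Q))}
    (hE : E ∈ ah H ((((M.U ⊗ M.U) ⊗ M.U) ⊗ M.Q) ⊗ (((M.U ⊗ M.U) ⊗ M.U) ⊗ M.Q))
      ((((M.U ⊗ M.U) ⊗ M.U) ⊗ M.Q) ⊗ (((M.U ⊗ M.U) ⊗ M.U) ⊗ M.Q)))
    (h : ∀ a b : I, E (tm H
      (tm H (tm H (tm H (M.j 0 (a 0)) (M.j 1 (a 1))) (M.j 2 (a 2))) M.q)
      (tm H (tm H (tm H (M.j 0 (b 0)) (M.j 1 (b 1))) (M.j 2 (b 2))) M.q)) =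
      tm H
      (tm H (tm H (tm H (M.j 0 (Function.update a i (b i) 0)) (M.j 1 (Function.update a i (b i) 1)))
        (M.j 2 (Function.update a i (b i) 2))) M.q)
      (tm H (tm H (tm H (M.j 0 (Function.update b i (a i) 0)) (M.j 1 (Function.update b i (a i) 1)))
        (M.j 2 (Function.update b i (a i) 2))) M.q)) :
    ∃ τ ∈ ah H (B ⊗ B) (B ⊗ B), ∀ a b : I, τ (tm H (bv H M.e a) (bv H M.e b)) =
      tm H (bv H M.e (Function.update a i (b i))) (bv H M.e (Function.update b i (a i))) := by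
  refine ⟨tl H M.down M.down ∘ₗ E ∘ₗ tl H M.up M.up,
    ah_comp H (ah_comp H (ah_tl H M.up_mem M.up_mem) hE) (ah_tl H M.down_mem M.down_mem), ?_⟩
  intro a b
  rw [LinearMap.comp_apply, LinearMap.comp_apply, tl_tm, M.up_eq, M.up_eq, h, tl_tm, M.down_eq,
    M.down_eq]

theorem exists_tau (M : MumfordType H ρ B) (i : Fin 3) :
    ∃ τ ∈ ah H (B ⊗ B) (B ⊗ B), ∀ a b : I, τ (tm H (bv H M.e a) (bv H M.e b)) =
      tm H (bv H M.e (Function.update a i (b i))) (bv H M.e (Function.update b i (a i))) := by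
  obtain ⟨E0, hE0, h0⟩ := swap_U H M.braid_U
  have hU2 : Br H M.U (M.U ⊗ M.U) := br_tensor H M.braid_U M.braid_U
  have hQ3 : Br H M.Q ((M.U ⊗ M.U) ⊗ M.U) :=
    br_tensor H (br_tensor H M.braid_Q M.braid_Q) M.braid_Q
  fin_cases i
  · obtain ⟨E1, hE1, h1⟩ := lift_left H M.braid_U hE0
    obtain ⟨E2, hE2, h2⟩ := lift_left H hU2 hE1
    obtain ⟨E3, hE3, h3⟩ := lift_left H hQ3 hE2
    refine swap_fin H M 0 hE3 fun a b => ?_
    exact h3 _ _ _ _ _ _ (h2 _ _ _ _ _ _ (h1 _ _ _ _ _ _ (h0 _ _)))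
  · obtain ⟨E1, hE1, h1⟩ := lift_right H M.braid_U hE0
    obtain ⟨E2, hE2, h2⟩ := lift_left H hU2 hE1
    obtain ⟨E3, hE3, h3⟩ := lift_left H hQ3 hE2
    refine swap_fin H M 1 hE3 fun a b => ?_
    exact h3 _ _ _ _ _ _ (h2 _ _ _ _ _ _ (h1 _ _ _ _ _ _ (h0 _ _)))
  · obtain ⟨E2, hE2, h2⟩ := lift_right H hU2 hE0
    obtain ⟨E3, hE3, h3⟩ := lift_left H hQ3 hE2
    refine swap_fin H M 2 hE3 fun a b => ?_
    exact h3 _ _ _ _ _ _ (h2 _ _ _ _ _ _ (h0 _ _))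

end Pool.Agent.MUM
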